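import Pool.Agent.LibTL52.Defs

/-!
Lifting the exponent at `2`.
-/

set_option autoImplicit false

namespace Pool.Agent.LibTL52

private theorem p8_odd_mul {X m : ℤ} (hm : Odd m) {V : ℕ} (h : (2 : ℤ) ^ V ∣ X * m) :
    (2 : ℤ) ^ V ∣ X :=
  (IsCoprime.pow_left (Int.isCoprime_two_left.mpr hm)).dvd_of_dvd_mul_right h

private theorem p8_geom {X Y : ℤ} (hX : X % 8 = 1) (hY : Y % 8 = 1) {g : ℕ} (hg : Odd g) :
    Odd (∑ i ∈ Finset.range g, X ^ i * Y ^ (g - 1 - i)) := by
  have h1 : ((∑ i ∈ Finset.range g, X ^ i * Y ^ (g - 1 - i) : ℤ) : ZMod 2) = 1 := by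
    push_cast
    have hX2 : ((X : ℤ) : ZMod 2) = 1 := by
      have : ((X : ℤ) : ZMod 2) = ((1 : ℤ) : ZMod 2) := by
        rw [ZMod.intCast_eq_intCast_iff']
        omega
      simpa using this
    have hY2 : ((Y : ℤ) : ZMod 2) = 1 := by
      have : ((Y : ℤ) : ZMod 2) = ((1 : ℤ) : ZMod 2) := by
        rw [ZMod.intCast_eq_intCast_iff']
        omega
      simpa using this
    rw [hX2, hY2]
    simp only [one_pow, mul_one, Finset.sum_const, Finset.card_range, nsmul_eq_mul]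
    obtain ⟨k, rfl⟩ := hg
    push_cast
    have : (2 : ZMod 2) = 0 := by decide
    rw [this]
    ring
  have h2 : ((∑ i ∈ Finset.range g, X ^ i * Y ^ (g - 1 - i) : ℤ) : ZMod 2) = ((1 : ℤ) : ZMod 2) := by
    rw [h1]
    simp
  rw [ZMod.intCast_eq_intCast_iff'] at h2
  rw [Int.odd_iff]
  simpa using h2

theorem lte_two {X Y : ℤ} (hX : X % 8 = 1) (hY : Y % 8 = 1) (hXY : X ≠ Y) {g V G : ℕ}
    (hg : 0 < g) (hG : g < 2 ^ G) (h : (2 : ℤ) ^ V ∣ X ^ g - Y ^ g) :
    (2 : ℤ) ^ (V - G) ∣ X - Y := by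
  induction G generalizing g V with
  | zero => omega
  | succ G ih =>
    rcases Nat.even_or_odd g with he | ho
    · obtain ⟨k, hk⟩ := he
      have hk0 : 0 < k := by omega
      have hkG : k < 2 ^ G := by
        rw [pow_succ] at hG
        omega
      rcases V with _ | V
      · simp
      · have h1 : X ^ g - Y ^ g = (X ^ k - Y ^ k) * (X ^ k + Y ^ k) := by
          rw [hk, pow_add, pow_add]
          ring
        have hXk : X ^ k % 8 = 1 := by
          have : X ^ k ≡ 1 ^ k [ZMOD 8] := Int.ModEq.pow k hX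
          rw [one_pow] at this
          exact this
        have hYk : Y ^ k % 8 = 1 := by
          have : Y ^ k ≡ 1 ^ k [ZMOD 8] := Int.ModEq.pow k hY
          rw [one_pow] at this
          exact this
        obtain ⟨m, hm, hmo⟩ : ∃ m : ℤ, X ^ k + Y ^ k = 2 * m ∧ Odd m := by
          refine ⟨(X ^ k + Y ^ k) / 2, by omega, ?_⟩
          rw [Int.odd_iff]
          omega
        rw [h1, hm] at h
        have h2 : (2 : ℤ) * 2 ^ V ∣ 2 * ((X ^ k - Y ^ k) * m) := by
          rw [← pow_succ']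
          calc (2 : ℤ) ^ (V + 1) ∣ (X ^ k - Y ^ k) * (2 * m) := h
            _ = 2 * ((X ^ k - Y ^ k) * m) := by ring
        have h3 : (2 : ℤ) ^ V ∣ (X ^ k - Y ^ k) * m :=
          (mul_dvd_mul_iff_left (by norm_num : (2 : ℤ) ≠ 0)).mp h2
        have h4 := ih hk0 hkG (p8_odd_mul hmo h3)
        rwa [Nat.add_sub_add_right]
    · have h1 := (Commute.all X Y).mul_geom_sum₂ g
      rw [← h1] at h
      exact (pow_dvd_pow 2 (Nat.sub_le _ _)).trans (p8_odd_mul (p8_geom hX hY ho) h)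

end Pool.Agent.LibTL52
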