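import Pool.Agent.LibTL52.P7
import Pool.Agent.LibTL52.P8

/-!
2-adic linear forms in two logarithms.
-/

set_option autoImplicit false

namespace Pool.Agent.LibTL52

private theorem sq_mod_eight {n : ℕ} (hn : Odd n) : n ^ 2 % 8 = 1 := by
  obtain ⟨k, rfl⟩ := hn
  have h : (2 * k + 1) ^ 2 = 4 * (k * (k + 1)) + 1 := by ring
  obtain ⟨m, hm⟩ := Nat.even_mul_succ_self k
  rw [h, hm]
  omega

/-- **2-adic estimate**: for odd multiplicatively independent `α, β ≥ 2`, `α, β ≤ 2 ^ lam` and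
exponents `x, z ≤ 2 ^ b`: if `2 ^ V` divides `α ^ x - β ^ z` then `V ≤ 2 ^ 60 (b + lam) ^ 8` -/
theorem two_adic {α β x z lam b V : ℕ} (hα : 2 ≤ α) (hβ : 2 ≤ β) (hI : Indep α β)
    (hαo : Odd α) (hβo : Odd β) (hαl : α ≤ 2 ^ lam) (hβl : β ≤ 2 ^ lam)
    (hx : 0 < x) (hz : 0 < z) (hxb : x ≤ 2 ^ b) (hzb : z ≤ 2 ^ b)
    (h : (2 : ℤ) ^ V ∣ (α : ℤ) ^ x - (β : ℤ) ^ z) : V ≤ 2 ^ 60 * (b + lam) ^ 8 := by
  have hlam : 1 ≤ lam := by
    rcases Nat.eq_zero_or_pos lam with h0 | h0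
    · rw [h0] at hαl
      omega
    · exact h0
  -- squares
  have hA8 : α ^ 2 % 8 = 1 := sq_mod_eight hαo
  have hB8 : β ^ 2 % 8 = 1 := sq_mod_eight hβo
  have hA2 : 2 ≤ α ^ 2 := by nlinarith
  have hB2 : 2 ≤ β ^ 2 := by nlinarith
  have hAl : α ^ 2 ≤ 2 ^ (2 * lam) := by
    rw [mul_comm, pow_mul]
    exact Nat.pow_le_pow_left hαl 2
  have hBl : β ^ 2 ≤ 2 ^ (2 * lam) := by
    rw [mul_comm, pow_mul]
    exact Nat.pow_le_pow_left hβl 2
  have hI2 : Indep (α ^ 2) (β ^ 2) := by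
    intro i j hi hj heq
    rw [← pow_mul, ← pow_mul] at heq
    exact hI (2 * i) (2 * j) (by omega) (by omega) heq
  -- divide by the gcd of the exponents
  obtain ⟨x', hx'⟩ := Nat.gcd_dvd_left x z
  obtain ⟨z', hz'⟩ := Nat.gcd_dvd_right x z
  have hg : 0 < Nat.gcd x z := Nat.gcd_pos_of_pos_left _ hx
  have hcop : x'.Coprime z' := by
    have h1 : Nat.gcd (Nat.gcd x z * x') (Nat.gcd x z * z') = Nat.gcd x z * Nat.gcd x' z' :=
      Nat.gcd_mul_left _ _ _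
    rw [← hx', ← hz'] at h1
    have h2 : Nat.gcd x z * Nat.gcd x' z' = Nat.gcd x z * 1 := by rw [← h1, mul_one]
    exact Nat.eq_of_mul_eq_mul_left hg h2
  have hx'0 : 0 < x' := by
    rcases Nat.eq_zero_or_pos x' with h0 | h0
    · rw [h0, mul_zero] at hx'
      omega
    · exact h0
  have hz'0 : 0 < z' := by
    rcases Nat.eq_zero_or_pos z' with h0 | h0
    · rw [h0, mul_zero] at hz'
      omega
    · exact h0
  have hgx : Nat.gcd x z ≤ x := Nat.gcd_le_left _ hx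
  have hxx : x' ≤ x := by
    rw [hx']
    exact Nat.le_mul_of_pos_left _ hg
  have hzz : z' ≤ z := by
    rw [hz']
    exact Nat.le_mul_of_pos_left _ hg
  set g := Nat.gcd x z with hgdef
  -- the difference of the squares
  set X : ℤ := ((α ^ 2 : ℕ) : ℤ) ^ x' with hX
  set Y : ℤ := ((β ^ 2 : ℕ) : ℤ) ^ z' with hY
  have hXg : X ^ g = (α : ℤ) ^ (2 * x) := by
    rw [hX, ← pow_mul, Nat.cast_pow, ← pow_mul]
    congr 1
    rw [hx']; ring
  have hYg : Y ^ g = (β : ℤ) ^ (2 * z) := by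
    rw [hY, ← pow_mul, Nat.cast_pow, ← pow_mul]
    congr 1
    rw [hz']; ring
  have hdvd : (2 : ℤ) ^ V ∣ X ^ g - Y ^ g := by
    rw [hXg, hYg]
    have e : (α : ℤ) ^ (2 * x) - (β : ℤ) ^ (2 * z) =
        ((α : ℤ) ^ x - (β : ℤ) ^ z) * ((α : ℤ) ^ x + (β : ℤ) ^ z) := by
      rw [mul_comm 2 x, mul_comm 2 z, pow_mul, pow_mul]
      ring
    rw [e]
    exact Dvd.dvd.mul_right h _
  have hmodX : X % 8 = 1 := by
    have h1 : (((α ^ 2 : ℕ) : ℤ)) ≡ 1 [ZMOD 8] := by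
      unfold Int.ModEq
      omega
    have h2 := h1.pow x'
    rw [one_pow] at h2
    exact h2
  have hmodY : Y % 8 = 1 := by
    have h1 : (((β ^ 2 : ℕ) : ℤ)) ≡ 1 [ZMOD 8] := by
      unfold Int.ModEq
      omega
    have h2 := h1.pow z'
    rw [one_pow] at h2
    exact h2
  have hXY : X ≠ Y := by
    intro heq
    rw [hX, hY] at heq
    exact hI2 x' z' hx'0 hz'0 (by exact_mod_cast heq)
  have hG : g < 2 ^ (b + 1) := by
    have : 2 ^ (b + 1) = 2 * 2 ^ b := by ring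
    have : 0 < 2 ^ b := by positivity
    omega
  have h1 := lte_two hmodX hmodY hXY hg hG hdvd
  have h2 := two_adic_coprime (lam := 2 * lam) (b := b) hA2 hB2 hI2 hA8 hB8 hAl hBl hcop hx'0 hz'0
    (hxx.trans hxb) (hzz.trans hzb)
  have h3 : V - (b + 1) < 2 ^ 42 * (b + 2 * lam) ^ 8 := by
    by_contra hcon
    push Not at hcon
    exact h2 ((pow_dvd_pow 2 hcon).trans h1)
  have h4 : (b + 2 * lam) ^ 8 ≤ 2 ^ 8 * (b + lam) ^ 8 := by
    rw [← mul_pow]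
    exact Nat.pow_le_pow_left (by omega) 8
  have h5 : b + lam ≤ (b + lam) ^ 8 := Nat.le_self_pow (by norm_num) _
  have h6 : 2 ^ 42 * (b + 2 * lam) ^ 8 ≤ 2 ^ 50 * (b + lam) ^ 8 := by
    calc 2 ^ 42 * (b + 2 * lam) ^ 8 ≤ 2 ^ 42 * (2 ^ 8 * (b + lam) ^ 8) :=
          Nat.mul_le_mul_left _ h4
      _ = 2 ^ 50 * (b + lam) ^ 8 := by ring
  omega

end Pool.Agent.LibTL52
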