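import Pool.Agent.LibTL52.Q5

/-!
Archimedean linear forms in two logarithms of integers.
-/

set_option autoImplicit false

namespace Pool.Agent.LibTL52

private theorem q6_log {a b : ℕ} (hb : 0 < b) (hab : b < a) {N : ℕ} (ha : a ≤ 2 ^ N) :
    (1 / 2 : ℝ) ^ (N + 1) ≤ Real.log a - Real.log b := by
  have ha0 : (0 : ℝ) < a := by exact_mod_cast hb.trans hab
  have hb0 : (0 : ℝ) < b := by exact_mod_cast hb
  rw [← Real.log_div ha0.ne' hb0.ne']
  have h1 := Real.one_sub_inv_le_log_of_pos (div_pos ha0 hb0)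
  have h2 : 1 / (a : ℝ) ≤ 1 - ((a : ℝ) / b)⁻¹ := by
    rw [inv_div]
    have h3 : (b : ℝ) + 1 ≤ a := by exact_mod_cast hab
    have h4 : (1 : ℝ) - b / a = (a - b) / a := by
      field_simp
    rw [h4]
    gcongr
    linarith
  have h5 : (1 / 2 : ℝ) ^ (N + 1) ≤ 1 / a := by
    have h6 : (a : ℝ) ≤ 2 ^ N := by exact_mod_cast ha
    rw [one_div_pow]
    apply one_div_le_one_div_of_le ha0
    refine h6.trans ?_
    exact pow_le_pow_right₀ (by norm_num) (Nat.le_succ N)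
  linarith

/-- the trivial bound -/
theorem arch_small {α β x z lam T : ℕ} (hα : 2 ≤ α) (hβ : 2 ≤ β) (hne : α ^ x ≠ β ^ z)
    (hαl : α ≤ 2 ^ lam) (hβl : β ≤ 2 ^ lam) (hx : x ≤ T) (hz : z ≤ T) :
    (1 / 2 : ℝ) ^ (lam * T + 1) ≤ |(x : ℝ) * Real.log α - z * Real.log β| := by
  have h1 : α ^ x ≤ 2 ^ (lam * T) := by
    calc α ^ x ≤ (2 ^ lam) ^ x := Nat.pow_le_pow_left hαl x
      _ = 2 ^ (lam * x) := (pow_mul 2 lam x).symm
      _ ≤ 2 ^ (lam * T) := Nat.pow_le_pow_right (by norm_num) (Nat.mul_le_mul_left lam hx)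
  have h2 : β ^ z ≤ 2 ^ (lam * T) := by
    calc β ^ z ≤ (2 ^ lam) ^ z := Nat.pow_le_pow_left hβl z
      _ = 2 ^ (lam * z) := (pow_mul 2 lam z).symm
      _ ≤ 2 ^ (lam * T) := Nat.pow_le_pow_right (by norm_num) (Nat.mul_le_mul_left lam hz)
  have h3 : (x : ℝ) * Real.log α = Real.log ((α ^ x : ℕ) : ℝ) := by
    push_cast
    rw [Real.log_pow]
  have h4 : (z : ℝ) * Real.log β = Real.log ((β ^ z : ℕ) : ℝ) := by
    push_cast
    rw [Real.log_pow]
  have hα0 : 0 < α ^ x := Nat.pow_pos (by omega)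
  have hβ0 : 0 < β ^ z := Nat.pow_pos (by omega)
  rw [h3, h4]
  rcases lt_or_gt_of_ne hne with h | h
  · rw [abs_sub_comm]
    exact (q6_log hα0 h h2).trans (le_abs_self _)
  · exact (q6_log hβ0 h h1).trans (le_abs_self _)

/-- **archimedean estimate**: for multiplicatively independent `α, β ≥ 2`, `α, β ≤ 2 ^ lam` and
exponents `0 < x, z ≤ 2 ^ b` one has `|x log α - z log β| ≥ 2 ^ (- 2 ^ 240 (b + lam) ^ 36)` -/
theorem arch {α β x z lam b : ℕ} (hα : 2 ≤ α) (hβ : 2 ≤ β) (hI : Indep α β)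
    (hαl : α ≤ 2 ^ lam) (hβl : β ≤ 2 ^ lam) (hx : 0 < x) (hz : 0 < z) (hxb : x ≤ 2 ^ b)
    (hzb : z ≤ 2 ^ b) :
    (1 / 2 : ℝ) ^ (2 ^ 240 * (b + lam) ^ 36) ≤ |(x : ℝ) * Real.log α - z * Real.log β| := by
  obtain ⟨g, x', z', hg, hc, hxg, hzg⟩ : ∃ g x' z' : ℕ, 0 < g ∧ x'.Coprime z' ∧
      x = x' * g ∧ z = z' * g := by
    obtain ⟨x', z', hc, h1, h2⟩ := Nat.exists_coprime x z
    exact ⟨Nat.gcd x z, x', z', Nat.gcd_pos_of_pos_left z hx, hc, h1, h2⟩
  have hx' : 0 < x' := by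
    rcases Nat.eq_zero_or_pos x' with h | h
    · rw [h, zero_mul] at hxg
      omega
    · exact h
  have hz' : 0 < z' := by
    rcases Nat.eq_zero_or_pos z' with h | h
    · rw [h, zero_mul] at hzg
      omega
    · exact h
  have hz'b : z' ≤ 2 ^ b := by
    refine le_trans ?_ hzb
    rw [hzg]
    exact Nat.le_mul_of_pos_right z' hg
  have hgR : (1 : ℝ) ≤ g := by exact_mod_cast hg
  have hred : |(x' : ℝ) * Real.log α - z' * Real.log β| ≤
      |(x : ℝ) * Real.log α - z * Real.log β| := by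
    have h1 : (x : ℝ) * Real.log α - z * Real.log β =
        g * ((x' : ℝ) * Real.log α - z' * Real.log β) := by
      rw [hxg, hzg]
      push_cast
      ring
    rw [h1, abs_mul, abs_of_pos (by linarith : (0 : ℝ) < g)]
    exact le_mul_of_one_le_left (abs_nonneg _) hgR
  refine le_trans ?_ hred
  have hlam : 1 ≤ lam := by
    rcases Nat.eq_zero_or_pos lam with h | h
    · rw [h, pow_zero] at hαl
      omega
    · exact h
  rcases le_or_gt (2 ^ 58 * (b + lam) ^ 3 * lam ^ 6) (max x' z') with hbig | hsmall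
  · exact arch_large hα hβ hI hαl hβl hc hx' hz' hz'b hbig
  · have h1 := arch_small (T := 2 ^ 58 * (b + lam) ^ 3 * lam ^ 6) hα hβ (hI x' z' hx' hz') hαl hβl
      ((le_max_left x' z').trans hsmall.le) ((le_max_right x' z').trans hsmall.le)
    refine le_trans ?_ h1
    apply pow_le_pow_of_le_one (by norm_num) (by norm_num)
    set n := b + lam with hn
    have hn1 : 1 ≤ n := by omega
    have hln : lam ≤ n := by omega
    calc lam * (2 ^ 58 * n ^ 3 * lam ^ 6) + 1 ≤ n * (2 ^ 58 * n ^ 3 * n ^ 6) + 1 := by gcongr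
      _ = 2 ^ 58 * n ^ 10 + 1 := by ring
      _ ≤ 2 ^ 58 * n ^ 36 + n ^ 36 := by
          have h2 : n ^ 10 ≤ n ^ 36 := Nat.pow_le_pow_right hn1 (by norm_num)
          have h3 : 1 ≤ n ^ 36 := Nat.one_le_pow _ _ hn1
          gcongr
      _ = (2 ^ 58 + 1) * n ^ 36 := by ring
      _ ≤ 2 ^ 240 * n ^ 36 := by
          gcongr
          norm_num

end Pool.Agent.LibTL52
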