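import Mathlib

/-!
Linear forms in two logarithms of integers, by interpolation determinants: definitions.
-/

set_option autoImplicit false

namespace Pool.Agent.LibTL52

/-- the integers `α, β` are multiplicatively independent (for `α, β ≥ 2`) -/
def Indep (α β : ℕ) : Prop := ∀ i j : ℕ, 0 < i → 0 < j → α ^ i ≠ β ^ j

/-- the interpolation matrix of `α ^ B₁ ≈ β ^ B₂` at the points `ρ i = (r, s)`: the entries are
`(r B₂ + s B₁) ^ k (α ^ r β ^ s) ^ l` for `k < K`, `l < L` -/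
def mat (α β B₁ B₂ K L : ℕ) (ρ : Fin K × Fin L → ℕ × ℕ) :
    Matrix (Fin K × Fin L) (Fin K × Fin L) ℤ :=
  Matrix.of fun i j => (((ρ i).1 : ℤ) * B₂ + (ρ i).2 * B₁) ^ (j.1 : ℕ) *
    ((α : ℤ) ^ (ρ i).1 * (β : ℤ) ^ (ρ i).2) ^ (j.2 : ℕ)

end Pool.Agent.LibTL52
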