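import Pool.Agent.LibTL52.Defs

/-!
2-adic preparation: `β` is a power of `α` modulo `2 ^ V`.
-/

set_option autoImplicit false

namespace Pool.Agent.LibTL52

/-- an odd number to the power `2 ^ V` is `1` modulo `2 ^ V` -/
theorem P1_pow (β V : ℕ) (hβ : Odd β) : ∃ t : ℕ, β ^ (2 ^ V) = 1 + 2 ^ V * t := by
  induction V with
  | zero =>
    obtain ⟨c, rfl⟩ := hβ
    exact ⟨2 * c, by simp; ring⟩
  | succ V ih =>
    obtain ⟨t, ht⟩ := ih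
    refine ⟨t + 2 ^ V * t ^ 2 - 2 ^ V * t ^ 2 + (2 ^ V * t ^ 2) / 2, ?_⟩
    have h1 : β ^ 2 ^ (V + 1) = (1 + 2 ^ V * t) ^ 2 := by
      rw [← ht, ← pow_mul, pow_succ]
    rw [h1, Nat.add_sub_cancel]
    rcases Nat.eq_zero_or_pos V with hV | hV
    · subst hV
      -- `β = 1 + t` is odd, so `t` is even
      rw [pow_zero, pow_one, one_mul] at ht
      have ht2 : Even t := by
        rw [ht] at hβ
        rcases Nat.even_or_odd t with h | h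
        · exact h
        · exfalso
          obtain ⟨c, rfl⟩ := h
          obtain ⟨d, hd⟩ := hβ
          omega
      obtain ⟨c, hc⟩ := ht2
      have hc2 : t = 2 * c := by omega
      subst hc2
      have h2 : 2 ^ 0 * (2 * c) ^ 2 / 2 = 2 * c ^ 2 := by
        have : 2 ^ 0 * (2 * c) ^ 2 = 2 * (2 * c ^ 2) := by ring
        rw [this, Nat.mul_div_cancel_left _ (by norm_num)]
      rw [h2]; ring
    · obtain ⟨W, rfl⟩ : ∃ W, V = W + 1 := ⟨V - 1, by omega⟩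
      have h2 : 2 ^ (W + 1) * t ^ 2 / 2 = 2 ^ W * t ^ 2 := by
        have : 2 ^ (W + 1) * t ^ 2 = 2 * (2 ^ W * t ^ 2) := by ring
        rw [this, Nat.mul_div_cancel_left _ (by norm_num)]
      rw [h2]; ring

theorem exists_exponent {α β B₁ B₂ V : ℕ} (hα : Odd α) (hβ : Odd β) (hB : Odd B₂)
    (h : (2 : ℤ) ^ V ∣ (α : ℤ) ^ B₁ - (β : ℤ) ^ B₂) :
    ∃ e : ℕ, (2 : ℤ) ^ V ∣ (e : ℤ) * B₂ - B₁ ∧ (2 : ℤ) ^ V ∣ (β : ℤ) - (α : ℤ) ^ e := by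
  obtain ⟨t, ht⟩ := P1_pow B₂ V hB
  obtain ⟨u, hu⟩ := P1_pow β V hβ
  have h2V : 1 ≤ 2 ^ V := Nat.one_le_two_pow
  -- `B' = B₂ ^ (2 ^ V - 1)`
  have hB' : B₂ ^ (2 ^ V - 1) * B₂ = 1 + 2 ^ V * t := by
    rw [← ht, ← pow_succ, Nat.sub_add_cancel h2V]
  refine ⟨B₁ * B₂ ^ (2 ^ V - 1), ⟨(B₁ : ℤ) * t, ?_⟩, ?_⟩
  · have h3 : ((B₂ : ℤ) ^ (2 ^ V - 1) * B₂) = 1 + 2 ^ V * t := by exact_mod_cast hB'
    push_cast
    linear_combination (B₁ : ℤ) * h3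
  · have h4 : (2 : ℤ) ^ V ∣ ((α : ℤ) ^ B₁) ^ (B₂ ^ (2 ^ V - 1)) -
        ((β : ℤ) ^ B₂) ^ (B₂ ^ (2 ^ V - 1)) := h.trans (sub_dvd_pow_sub_pow _ _ _)
    have h5 : (2 : ℤ) ^ V ∣ (β : ℤ) ^ (2 ^ V) - 1 := by
      have h6 : (β : ℤ) ^ (2 ^ V) = 1 + 2 ^ V * u := by exact_mod_cast hu
      exact ⟨u, by rw [h6]; ring⟩
    have h7 : (2 : ℤ) ^ V ∣ ((β : ℤ) ^ (2 ^ V)) ^ t - 1 := by
      have h8 := h5.trans (sub_dvd_pow_sub_pow ((β : ℤ) ^ (2 ^ V)) 1 t)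
      rwa [one_pow] at h8
    have h9 : ((β : ℤ) ^ B₂) ^ (B₂ ^ (2 ^ V - 1)) = β * ((β : ℤ) ^ (2 ^ V)) ^ t := by
      rw [← pow_mul, mul_comm B₂, hB', pow_add, pow_one, pow_mul]
    rw [h9, ← pow_mul] at h4
    have h10 : (β : ℤ) - (α : ℤ) ^ (B₁ * B₂ ^ (2 ^ V - 1)) =
        -((α : ℤ) ^ (B₁ * B₂ ^ (2 ^ V - 1)) - β * ((β : ℤ) ^ (2 ^ V)) ^ t) -
          β * (((β : ℤ) ^ (2 ^ V)) ^ t - 1) := by ring
    rw [h10]
    exact dvd_sub ((dvd_neg).2 h4) (Dvd.dvd.mul_left h7 _)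

end Pool.Agent.LibTL52
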