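import Pool.Agent.LibTL52.Defs

/-!
2-adic interpolation of `ζ ↦ ζ ^ k α ^ (l ζ)` by integer polynomials in `4 ζ`.
-/

set_option autoImplicit false
open Polynomial

namespace Pool.Agent.LibTL52

theorem P2_desc (z q : ℕ) :
    ∏ i ∈ Finset.range q, ((4 * (z : ℤ)) - 4 * (i : ℤ)) = 4 ^ q * (z.descFactorial q : ℤ) := by
  induction q with
  | zero => simp
  | succ q ih =>
    rw [Finset.prod_range_succ, ih, Nat.descFactorial_succ]
    rcases le_or_gt q z with h | h
    · push_cast [Nat.cast_sub h]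
      ring
    · rw [Nat.descFactorial_of_lt h]
      simp

/-- `q!` divides `O 2 ^ q` where `O` is the odd part of `Q!` -/
theorem P2_dvd (q Q : ℕ) (hq : q ≤ Q) :
    q.factorial ∣ (Q.factorial / 2 ^ (Q.factorial.factorization 2)) * 2 ^ q := by
  have hq0 : q.factorial ≠ 0 := Nat.factorial_ne_zero q
  have h1 : 2 ^ (q.factorial.factorization 2) * (q.factorial / 2 ^ (q.factorial.factorization 2)) =
      q.factorial := Nat.ordProj_mul_ordCompl_eq_self q.factorial 2
  have h2 : q.factorial / 2 ^ (q.factorial.factorization 2) ∣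
      Q.factorial / 2 ^ (Q.factorial.factorization 2) :=
    Nat.ordCompl_dvd_ordCompl_of_dvd (Nat.factorial_dvd_factorial hq) 2
  have h3 : q.factorial.factorization 2 ≤ q := by
    rcases Nat.eq_zero_or_pos q with h | h
    · subst h; simp
    · have h4 : padicValNat 2 q.factorial < q := by
        have := padicValNat_factorial_lt_of_ne_zero 2 (by omega : q ≠ 0)
        exact this
      rw [Nat.factorization_def _ Nat.prime_two]
      exact h4.le
  rw [← h1, mul_comm]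
  exact mul_dvd_mul h2 (pow_dvd_pow 2 h3)

theorem P2_binom (h : ℤ) (z Q : ℕ) (hz : z < Q) :
    ∑ q ∈ Finset.range Q, (8 * h) ^ q * (z.choose q : ℤ) = (1 + 8 * h) ^ z := by
  rw [add_comm, add_pow]
  have hsub : Finset.range (z + 1) ⊆ Finset.range Q := Finset.range_subset_range.2 hz
  rw [← Finset.sum_subset hsub]
  · refine Finset.sum_congr rfl (fun q _ => ?_)
    rw [one_pow, mul_one]
  · intro q _ hq
    rw [Finset.mem_range, not_lt] at hq
    rw [Nat.choose_eq_zero_of_lt (by omega)]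
    simp

theorem exists_poly (α Q k l : ℕ) (hα : α % 8 = 1) :
    ∃ (O : ℕ) (H : ℤ[X]), Odd O ∧ ∀ ζ : ℕ, ζ < Q →
      H.eval (4 * (ζ : ℤ)) = O * 4 ^ k * ((ζ : ℤ) ^ k * (α : ℤ) ^ (l * ζ)) := by
  set O : ℕ := Q.factorial / 2 ^ (Q.factorial.factorization 2) with hO
  have hOodd : Odd O := by
    rw [← Nat.not_even_iff_odd, even_iff_two_dvd]
    exact Nat.not_dvd_ordCompl Nat.prime_two (Nat.factorial_ne_zero Q)
  obtain ⟨h, hh⟩ : ∃ h : ℕ, α ^ l = 1 + 8 * h := by
    have h1 : α ^ l % 8 = 1 := by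
      rw [Nat.pow_mod, hα, one_pow]
      norm_num
    exact ⟨α ^ l / 8, by omega⟩
  refine ⟨O, X ^ k * ∑ q ∈ Finset.range Q, C ((h : ℤ) ^ q * ((O * 2 ^ q / q.factorial : ℕ) : ℤ)) *
    ∏ i ∈ Finset.range q, (X - C (4 * (i : ℤ))), hOodd, ?_⟩
  intro z hz
  have hα' : (α : ℤ) ^ (l * z) = (1 + 8 * (h : ℤ)) ^ z := by
    rw [pow_mul]
    congr 1
    exact_mod_cast hh
  rw [eval_mul, eval_pow, eval_X, eval_finsetSum, hα', ← P2_binom (h : ℤ) z Q hz,
    Finset.mul_sum, Finset.mul_sum, Finset.mul_sum]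
  refine Finset.sum_congr rfl (fun q hq => ?_)
  rw [Finset.mem_range] at hq
  rw [eval_mul, eval_C, eval_prod]
  simp only [eval_sub, eval_X, eval_C]
  rw [P2_desc, Nat.descFactorial_eq_factorial_mul_choose]
  have h1 : (((O * 2 ^ q / q.factorial : ℕ) : ℤ)) * (q.factorial : ℤ) = O * 2 ^ q := by
    exact_mod_cast Nat.div_mul_cancel (P2_dvd q Q hq.le)
  push_cast at h1 ⊢
  have h8 : (8 : ℤ) ^ q = 2 ^ q * 4 ^ q := by rw [← mul_pow]; norm_num
  rw [mul_pow (8 : ℤ), h8]
  linear_combination ((4 * (z : ℤ)) ^ k * (h : ℤ) ^ q * 4 ^ q * (z.choose q : ℤ)) * h1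

end Pool.Agent.LibTL52
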