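import Pool.Agent.LibTL52.V1
import Pool.Agent.LibTL52.P2

/-!
The 2-adic size of the determinant of the interpolating functions.
-/

set_option autoImplicit false

namespace Pool.Agent.LibTL52

theorem P3_sum (K L : ℕ) : 2 * ∑ j : Fin K × Fin L, (j.1 : ℕ) = (K * L) * (K - 1) := by
  rw [Fintype.sum_prod_type]
  simp only [Finset.sum_const, Finset.card_univ, Fintype.card_fin, smul_eq_mul]
  rw [← Finset.mul_sum, Fin.sum_univ_eq_sum_range (fun i => i) K]
  have h := Finset.sum_range_id_mul_two K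
  calc 2 * (L * ∑ i ∈ Finset.range K, i) = L * ((∑ i ∈ Finset.range K, i) * 2) := by ring
    _ = L * (K * (K - 1)) := by rw [h]
    _ = (K * L) * (K - 1) := by ring

theorem two_pow_dvd_det (α K L : ℕ) (hα : α % 8 = 1) (ζ : Fin K × Fin L → ℕ) :
    (2 : ℤ) ^ ((K * L) * (K * L - K)) ∣ (Matrix.of fun i j : Fin K × Fin L =>
      (ζ i : ℤ) ^ (j.1 : ℕ) * (α : ℤ) ^ ((j.2 : ℕ) * ζ i)).det := by
  rcases Nat.eq_zero_or_pos (K * L) with h0 | hpos
  · rw [h0, zero_mul, pow_zero]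
    exact one_dvd _
  have hK : 1 ≤ K := Nat.pos_of_ne_zero (fun h => by rw [h, zero_mul] at hpos; omega)
  have hL : 1 ≤ L := Nat.pos_of_ne_zero (fun h => by rw [h, mul_zero] at hpos; omega)
  set Q : ℕ := Finset.univ.sup ζ + 1 with hQ
  have hζ : ∀ i, ζ i < Q := fun i => Nat.lt_succ_of_le (Finset.le_sup (Finset.mem_univ i))
  choose O H hO hH using fun j : Fin K × Fin L => exists_poly α Q (j.1 : ℕ) (j.2 : ℕ) hα
  set A : Matrix (Fin K × Fin L) (Fin K × Fin L) ℤ := Matrix.of fun i j : Fin K × Fin L =>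
      (ζ i : ℤ) ^ (j.1 : ℕ) * (α : ℤ) ^ ((j.2 : ℕ) * ζ i) with hA
  have h1 := pow_dvd_det H 4 (fun i => (ζ i : ℤ))
  have h2 : (Matrix.of fun i j : Fin K × Fin L => (H j).eval (4 * (ζ i : ℤ))) =
      Matrix.of fun i j : Fin K × Fin L => ((O j : ℤ) * 4 ^ (j.1 : ℕ)) * A i j := by
    ext i j
    rw [Matrix.of_apply, Matrix.of_apply, hH j (ζ i) (hζ i), hA, Matrix.of_apply]
  rw [h2, Matrix.det_mul_row, Finset.prod_mul_distrib, Finset.prod_pow_eq_pow_sum,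
    Fintype.card_prod, Fintype.card_fin, Fintype.card_fin] at h1
  have h3 : (4 : ℤ) ^ (K * L * (K * L - 1) / 2) = 2 ^ (K * L * (K * L - 1)) := by
    have h4 : (4 : ℤ) = 2 ^ 2 := by norm_num
    rw [h4, ← pow_mul, Nat.mul_div_cancel' (even_iff_two_dvd.1 (Nat.even_mul_pred_self _))]
  have h5 : (4 : ℤ) ^ (∑ j : Fin K × Fin L, (j.1 : ℕ)) = 2 ^ (K * L * (K - 1)) := by
    have h4 : (4 : ℤ) = 2 ^ 2 := by norm_num
    rw [h4, ← pow_mul, P3_sum]
  rw [h3, h5] at h1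
  have h6 : K * L * (K * L - 1) = K * L * (K - 1) + K * L * (K * L - K) := by
    rw [← Nat.mul_add]
    congr 1
    have : K ≤ K * L := Nat.le_mul_of_pos_right K hL
    omega
  rw [h6, pow_add] at h1
  have h7 : (2 : ℤ) ^ (K * L * (K - 1)) * 2 ^ (K * L * (K * L - K)) ∣
      2 ^ (K * L * (K - 1)) * ((∏ j, (O j : ℤ)) * A.det) := by
    refine h1.trans (dvd_of_eq ?_)
    ring
  have h8 := (mul_dvd_mul_iff_left (pow_ne_zero (K * L * (K - 1)) (two_ne_zero' ℤ))).1 h7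
  have hodd : ∀ j, IsCoprime (2 : ℤ) (O j : ℤ) := by
    intro j
    obtain ⟨c, hc⟩ := hO j
    refine ⟨-(c : ℤ), 1, ?_⟩
    rw [hc]; push_cast; ring
  have hcop : IsCoprime ((2 : ℤ) ^ (K * L * (K * L - K))) (∏ j, (O j : ℤ)) :=
    IsCoprime.pow_left (IsCoprime.prod_right (fun j _ => hodd j))
  exact hcop.dvd_of_dvd_mul_left h8

end Pool.Agent.LibTL52
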