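import Pool.Agent.LibTL52.P1
import Pool.Agent.LibTL52.P3

/-!
The 2-adic size of the interpolation determinant.
-/

set_option autoImplicit false

namespace Pool.Agent.LibTL52

/-- congruent matrices have congruent determinants -/
theorem P4_det {n : Type} [Fintype n] [DecidableEq n] (m : ℕ) (A B : Matrix n n ℤ)
    (h : ∀ i j, (m : ℤ) ∣ A i j - B i j) : (m : ℤ) ∣ A.det - B.det := by
  rw [← ZMod.intCast_eq_intCast_iff_dvd_sub]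
  have h1 : (Int.castRingHom (ZMod m)).mapMatrix A = (Int.castRingHom (ZMod m)).mapMatrix B := by
    ext i j
    rw [RingHom.mapMatrix_apply, RingHom.mapMatrix_apply, Matrix.map_apply, Matrix.map_apply]
    have h2 := (ZMod.intCast_eq_intCast_iff_dvd_sub (B i j) (A i j) m).2 (h i j)
    simpa using h2.symm
  have h3 := (Int.castRingHom (ZMod m)).map_det A
  have h4 := (Int.castRingHom (ZMod m)).map_det B
  rw [h1, ← h4] at h3
  simpa using h3.symm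

theorem two_pow_dvd_mat_det {α β B₁ B₂ K L V : ℕ} (ρ : Fin K × Fin L → ℕ × ℕ)
    (hα : α % 8 = 1) (hβ : Odd β) (hB : Odd B₂)
    (h : (2 : ℤ) ^ V ∣ (α : ℤ) ^ B₁ - (β : ℤ) ^ B₂) (hV : (K * L) * (K * L - K) ≤ V) :
    (2 : ℤ) ^ ((K * L) * (K * L - K)) ∣ (mat α β B₁ B₂ K L ρ).det := by
  have hαo : Odd α := Nat.odd_iff.2 (by omega)
  obtain ⟨e, he1, he2⟩ := exists_exponent hαo hβ hB h
  set M : ℕ := (K * L) * (K * L - K) with hM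
  have he1' : (2 : ℤ) ^ M ∣ (e : ℤ) * B₂ - B₁ := (pow_dvd_pow 2 hV).trans he1
  have he2' : (2 : ℤ) ^ M ∣ (β : ℤ) - (α : ℤ) ^ e := (pow_dvd_pow 2 hV).trans he2
  set ζ : Fin K × Fin L → ℕ := fun i => (ρ i).1 + (ρ i).2 * e with hζ
  set A : Matrix (Fin K × Fin L) (Fin K × Fin L) ℤ := Matrix.of fun i j : Fin K × Fin L =>
      (ζ i : ℤ) ^ (j.1 : ℕ) * (α : ℤ) ^ ((j.2 : ℕ) * ζ i) with hA
  set B : Matrix (Fin K × Fin L) (Fin K × Fin L) ℤ := Matrix.of fun i j : Fin K × Fin L =>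
      (B₂ : ℤ) ^ (j.1 : ℕ) * A i j with hBdef
  have hdetB : (2 : ℤ) ^ M ∣ B.det := by
    rw [hBdef, Matrix.det_mul_row]
    exact Dvd.dvd.mul_left (two_pow_dvd_det α K L hα ζ) _
  have hdiff : ((2 ^ M : ℕ) : ℤ) ∣ (mat α β B₁ B₂ K L ρ).det - B.det := by
    apply P4_det
    intro i j
    push_cast
    rw [mat, hBdef, hA, Matrix.of_apply, Matrix.of_apply, Matrix.of_apply]
    set r : ℕ := (ρ i).1 with hr
    set s : ℕ := (ρ i).2 with hs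
    have hz : ζ i = r + s * e := rfl
    -- first factor
    have c1 : ((r : ℤ) * B₂ + s * B₁) ≡ (B₂ : ℤ) * (ζ i : ℤ) [ZMOD (2 : ℤ) ^ M] := by
      rw [Int.modEq_iff_dvd, hz]
      push_cast
      have : (B₂ : ℤ) * (r + s * e) - (r * B₂ + s * B₁) = s * ((e : ℤ) * B₂ - B₁) := by ring
      rw [this]
      exact Dvd.dvd.mul_left he1' _
    have c2 : (β : ℤ) ≡ (α : ℤ) ^ e [ZMOD (2 : ℤ) ^ M] := by
      rw [Int.modEq_iff_dvd]
      rw [← neg_sub]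
      exact (dvd_neg).2 he2'
    have c3 : (((r : ℤ) * B₂ + s * B₁) ^ (j.1 : ℕ) * ((α : ℤ) ^ r * (β : ℤ) ^ s) ^ (j.2 : ℕ)) ≡
        ((B₂ : ℤ) * (ζ i : ℤ)) ^ (j.1 : ℕ) * ((α : ℤ) ^ r * ((α : ℤ) ^ e) ^ s) ^ (j.2 : ℕ)
        [ZMOD (2 : ℤ) ^ M] :=
      Int.ModEq.mul (c1.pow _) ((Int.ModEq.mul (Int.ModEq.refl _) (c2.pow _)).pow _)
    have c4 : ((B₂ : ℤ) * (ζ i : ℤ)) ^ (j.1 : ℕ) *
        ((α : ℤ) ^ r * ((α : ℤ) ^ e) ^ s) ^ (j.2 : ℕ) =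
        (B₂ : ℤ) ^ (j.1 : ℕ) * ((ζ i : ℤ) ^ (j.1 : ℕ) * (α : ℤ) ^ ((j.2 : ℕ) * ζ i)) := by
      have c5 : ((α : ℤ) ^ r * ((α : ℤ) ^ e) ^ s) ^ (j.2 : ℕ) = (α : ℤ) ^ ((j.2 : ℕ) * ζ i) := by
        rw [hz, ← pow_mul, ← pow_add, ← pow_mul]
        congr 1
        ring
      rw [c5, mul_pow]
      ring
    rw [c4] at c3
    exact (Int.modEq_iff_dvd.1 c3.symm)
  push_cast at hdiff
  have h9 : (mat α β B₁ B₂ K L ρ).det = ((mat α β B₁ B₂ K L ρ).det - B.det) + B.det := by ring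
  rw [h9]
  exact dvd_add hdiff hdetB

end Pool.Agent.LibTL52
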