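import Pool.Agent.LibTL52.Defs

/-!
The trivial upper bound for the interpolation determinant.
-/

set_option autoImplicit false

namespace Pool.Agent.LibTL52

theorem abs_mat_det_le {α β B₁ B₂ K L S A : ℕ} (ρ : Fin K × Fin L → ℕ × ℕ)
    (hρ : ∀ i, (ρ i).1 < 2 * S ∧ (ρ i).2 < 2 * S) (hα : 1 ≤ α) (hβ : 1 ≤ β) (hαA : α ≤ A)
    (hβA : β ≤ A) (hB : 1 ≤ B₁ + B₂) :
    |(mat α β B₁ B₂ K L ρ).det| ≤
      (((K * L) ^ (K * L) * ((2 * S * (B₁ + B₂)) ^ K * A ^ (4 * S * L)) ^ (K * L) : ℕ) : ℤ) := by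
  have hA : 1 ≤ A := hα.trans hαA
  have hent : ∀ i j, AbsoluteValue.abs ((mat α β B₁ B₂ K L ρ) i j) ≤
      (((2 * S * (B₁ + B₂)) ^ K * A ^ (4 * S * L) : ℕ) : ℤ) := by
    intro i j
    have h1 : (mat α β B₁ B₂ K L ρ) i j =
        ((((ρ i).1 * B₂ + (ρ i).2 * B₁) ^ (j.1 : ℕ) *
          (α ^ (ρ i).1 * β ^ (ρ i).2) ^ (j.2 : ℕ) : ℕ) : ℤ) := by
      simp [mat]
    rw [h1]
    have h2 : AbsoluteValue.abs
        ((((ρ i).1 * B₂ + (ρ i).2 * B₁) ^ (j.1 : ℕ) *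
          (α ^ (ρ i).1 * β ^ (ρ i).2) ^ (j.2 : ℕ) : ℕ) : ℤ) =
        ((((ρ i).1 * B₂ + (ρ i).2 * B₁) ^ (j.1 : ℕ) *
          (α ^ (ρ i).1 * β ^ (ρ i).2) ^ (j.2 : ℕ) : ℕ) : ℤ) := by
      rw [AbsoluteValue.abs_apply]
      exact abs_of_nonneg (Int.natCast_nonneg _)
    rw [h2]
    apply Int.ofNat_le.2
    obtain ⟨hr, hs⟩ := hρ i
    have hS : 1 ≤ 2 * S := by omega
    apply Nat.mul_le_mul
    · have h3 : (ρ i).1 * B₂ + (ρ i).2 * B₁ ≤ 2 * S * (B₁ + B₂) := by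
        have h4 : (ρ i).1 * B₂ ≤ 2 * S * B₂ := Nat.mul_le_mul_right _ hr.le
        have h5 : (ρ i).2 * B₁ ≤ 2 * S * B₁ := Nat.mul_le_mul_right _ hs.le
        rw [Nat.mul_add]
        omega
      refine (Nat.pow_le_pow_left h3 _).trans (Nat.pow_le_pow_right ?_ j.1.2.le)
      exact Nat.mul_pos hS hB
    · have h3 : α ^ (ρ i).1 * β ^ (ρ i).2 ≤ A ^ (4 * S) := by
        have h4 : α ^ (ρ i).1 ≤ A ^ (2 * S) :=
          (Nat.pow_le_pow_left hαA _).trans (Nat.pow_le_pow_right hA hr.le)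
        have h5 : β ^ (ρ i).2 ≤ A ^ (2 * S) :=
          (Nat.pow_le_pow_left hβA _).trans (Nat.pow_le_pow_right hA hs.le)
        refine (Nat.mul_le_mul h4 h5).trans (le_of_eq ?_)
        rw [← pow_add]
        congr 1; ring
      calc (α ^ (ρ i).1 * β ^ (ρ i).2) ^ (j.2 : ℕ) ≤ (A ^ (4 * S)) ^ (j.2 : ℕ) :=
            Nat.pow_le_pow_left h3 _
        _ ≤ (A ^ (4 * S)) ^ L := Nat.pow_le_pow_right (Nat.pow_pos hA) j.2.2.le
        _ = A ^ (4 * S * L) := (pow_mul _ _ _).symm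
  have h := Matrix.det_le hent
  rw [AbsoluteValue.abs_apply] at h
  refine h.trans ?_
  rw [Fintype.card_prod, Fintype.card_fin, Fintype.card_fin, nsmul_eq_mul]
  have h3 : (((K * L).factorial : ℕ) : ℤ) ≤ (((K * L) ^ (K * L) : ℕ) : ℤ) :=
    Int.ofNat_le.2 (Nat.factorial_le_pow _)
  push_cast at h3 ⊢
  apply mul_le_mul_of_nonneg_right h3
  positivity

end Pool.Agent.LibTL52
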