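import Pool.Agent.LibTL52.Defs

/-!
The numerical inequality of the 2-adic case.
-/

set_option autoImplicit false

namespace Pool.Agent.LibTL52

private theorem le_two_pow_pred {n : ℕ} (hn : 1 ≤ n) : n ≤ 2 ^ (n - 1) := by
  have h : n - 1 < 2 ^ (n - 1) := Nat.lt_two_pow_self
  omega

theorem numeric_two {lam b L S K B₁ B₂ : ℕ} (hlam : 1 ≤ lam) (hL : L = 64 * (b + lam))
    (hS : S = 32 * L * lam) (hK : K = 512 * L * lam ^ 2) (hB₁ : B₁ ≤ 2 ^ b) (hB₂ : B₂ ≤ 2 ^ b) :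
    (K * L) ^ (K * L) * ((2 * S * (B₁ + B₂)) ^ K * (2 ^ lam) ^ (4 * S * L)) ^ (K * L) <
      2 ^ ((K * L) * (K * L - K)) := by
  have ht : 1 ≤ b + lam := by omega
  have h1 : 2 * S * (B₁ + B₂) ≤ 2 ^ (16 * (b + lam) - 1) := by
    calc 2 * S * (B₁ + B₂) ≤ 2 * S * (2 ^ b + 2 ^ b) := Nat.mul_le_mul_left _ (by omega)
      _ = 2 ^ 13 * ((b + lam) * (lam * 2 ^ b)) := by rw [hS, hL]; ring
      _ ≤ 2 ^ 13 * (2 ^ (b + lam - 1) * (2 ^ (lam - 1) * 2 ^ b)) := by
          apply Nat.mul_le_mul_left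
          exact Nat.mul_le_mul (le_two_pow_pred ht)
            (Nat.mul_le_mul_right _ (le_two_pow_pred hlam))
      _ = 2 ^ (13 + (b + lam - 1 + (lam - 1 + b))) := by rw [← pow_add, ← pow_add, ← pow_add]
      _ ≤ 2 ^ (16 * (b + lam) - 1) := Nat.pow_le_pow_right (by norm_num) (by omega)
  obtain ⟨u, hu⟩ : ∃ u, 16 * (b + lam) = u + 1 := ⟨16 * (b + lam) - 1, by omega⟩
  have hLu : L = 4 * (u + 1) := by omega
  rw [show 16 * (b + lam) - 1 = u by omega] at h1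
  -- the half of `K * L`
  set M := 256 * L ^ 2 * lam ^ 2 with hM
  have hKL : K * L = 2 * M := by rw [hK, hM]; ring
  have hin : (2 * S * (B₁ + B₂)) ^ K * (2 ^ lam) ^ (4 * S * L) ≤ 2 ^ (u * K + lam * (4 * S * L)) := by
    rw [pow_add, pow_mul 2 u K, pow_mul 2 lam (4 * S * L)]
    exact Nat.mul_le_mul_right _ (Nat.pow_le_pow_left h1 K)
  have hexp : u * K + lam * (4 * S * L) + K = M := by
    have e1 : 4 * (u * K + lam * (4 * S * L) + K) = 4 * M := by
      calc 4 * (u * K + lam * (4 * S * L) + K) = (4 * (u + 1)) * K + 16 * lam * S * L := by ring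
        _ = L * K + 16 * lam * S * L := by rw [← hLu]
        _ = 4 * M := by rw [hS, hK, hM]; ring
    omega
  have hsub : K * L - K = M + (u * K + lam * (4 * S * L)) := by omega
  have hLpos : 1 ≤ L := by omega
  have hM3 : 3 ≤ M := by
    have h2 : 1 ≤ L ^ 2 := Nat.one_le_pow _ _ hLpos
    have h3 : 1 ≤ lam ^ 2 := Nat.one_le_pow _ _ hlam
    have h4 : 1 ≤ L ^ 2 * lam ^ 2 := Nat.mul_le_mul h2 h3
    rw [hM, mul_assoc]
    omega
  have h2M : 2 * M < 2 ^ M := by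
    have h5 : ∀ n : ℕ, 2 * (n + 3) < 2 ^ (n + 3) := by
      intro n
      induction n with
      | zero => norm_num
      | succ n ih =>
        have : 2 ^ (n + 1 + 3) = 2 * 2 ^ (n + 3) := by ring
        omega
    have h6 := h5 (M - 3)
    rw [show M - 3 + 3 = M by omega] at h6
    exact h6
  rw [hsub, hKL, mul_add (2 * M) M, pow_add]
  have h7 : (2 * M) ^ (2 * M) < 2 ^ (2 * M * M) := by
    rw [mul_comm (2 * M) M, pow_mul 2 M (2 * M)]
    exact Nat.pow_lt_pow_left h2M (by omega)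
  have h8 : ((2 * S * (B₁ + B₂)) ^ K * (2 ^ lam) ^ (4 * S * L)) ^ (2 * M) ≤
      2 ^ (2 * M * (u * K + lam * (4 * S * L))) := by
    rw [mul_comm (2 * M) (u * K + lam * (4 * S * L)), pow_mul 2 _ (2 * M)]
    exact Nat.pow_le_pow_left hin _
  exact Nat.mul_lt_mul_of_lt_of_le h7 h8 (by positivity)

end Pool.Agent.LibTL52
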