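import Pool.Agent.LibTL52.Z5
import Pool.Agent.LibTL52.P4
import Pool.Agent.LibTL52.P5
import Pool.Agent.LibTL52.P6

/-!
2-adic linear forms in two logarithms, coprime exponents.
-/

set_option autoImplicit false

namespace Pool.Agent.LibTL52

private theorem p7_lam {α lam : ℕ} (hα : 2 ≤ α) (hαl : α ≤ 2 ^ lam) : 1 ≤ lam := by
  by_contra h
  have h1 : lam = 0 := by omega
  subst h1
  simp at hαl
  omega

/-- large coprime exponents, `B₂` odd -/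
theorem two_adic_odd {α β B₁ B₂ lam b : ℕ} (hα : 2 ≤ α) (hβ : 2 ≤ β) (hI : Indep α β)
    (hα8 : α % 8 = 1) (hβ8 : β % 8 = 1) (hαl : α ≤ 2 ^ lam) (hβl : β ≤ 2 ^ lam)
    (hc : B₁.Coprime B₂) (hB₁ : 0 < B₁) (hB₂ : 0 < B₂) (hB₁b : B₁ ≤ 2 ^ b) (hB₂b : B₂ ≤ 2 ^ b)
    (hbig : 2048 * (b + lam) * lam ≤ max B₁ B₂) (hodd : Odd B₂) :
    ¬ (2 : ℤ) ^ (2 ^ 42 * (b + lam) ^ 8) ∣ (α : ℤ) ^ B₁ - (β : ℤ) ^ B₂ := by
  intro hdvd
  have hlam : 1 ≤ lam := p7_lam hα hαl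
  obtain ⟨L, hL⟩ : ∃ L, L = 64 * (b + lam) := ⟨_, rfl⟩
  obtain ⟨S, hS⟩ : ∃ S, S = 32 * L * lam := ⟨_, rfl⟩
  obtain ⟨K, hK⟩ : ∃ K, K = 512 * L * lam ^ 2 := ⟨_, rfl⟩
  have hL0 : 0 < L := by omega
  have hK0 : 0 < K := by
    rw [hK]
    positivity
  have hSm : S ≤ max B₁ B₂ := by
    have h1 : S = 2048 * (b + lam) * lam := by
      rw [hS, hL]
      ring
    rw [h1]
    exact hbig
  have hKL : K * L ≤ S ^ 2 := by
    have h1 : S ^ 2 = K * L + K * L := by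
      rw [hS, hK]
      ring
    rw [h1]
    exact Nat.le_add_right _ _
  obtain ⟨ρ, hρ, hdet⟩ := exists_minor hα hβ hI hc hB₁ hB₂ hSm hK0 hL0 hKL
  have hβodd : Odd β := by
    rw [Nat.odd_iff]
    omega
  have hV : (K * L) * (K * L - K) ≤ 2 ^ 42 * (b + lam) ^ 8 := by
    have h1 : K * L ≤ 2 ^ 21 * (b + lam) ^ 4 := by
      have h2 : K * L = 2 ^ 21 * ((b + lam) ^ 2 * lam ^ 2) := by
        rw [hK, hL]
        ring
      rw [h2]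
      apply Nat.mul_le_mul_left
      calc (b + lam) ^ 2 * lam ^ 2 ≤ (b + lam) ^ 2 * (b + lam) ^ 2 :=
            Nat.mul_le_mul_left _ (Nat.pow_le_pow_left (by omega) 2)
        _ = (b + lam) ^ 4 := by ring
    calc (K * L) * (K * L - K) ≤ (K * L) * (K * L) := Nat.mul_le_mul_left _ (Nat.sub_le _ _)
      _ ≤ (2 ^ 21 * (b + lam) ^ 4) * (2 ^ 21 * (b + lam) ^ 4) := Nat.mul_le_mul h1 h1
      _ = 2 ^ 42 * (b + lam) ^ 8 := by ring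
  have h2 := two_pow_dvd_mat_det (K := K) (L := L) ρ hα8 hβodd hodd hdvd hV
  have h3 := abs_mat_det_le (A := 2 ^ lam) ρ hρ (by omega) (by omega) hαl hβl
    (by omega : 1 ≤ B₁ + B₂)
  have h4 := numeric_two hlam hL hS hK hB₁b hB₂b
  have h5 := Int.le_of_dvd (abs_pos.2 hdet) ((dvd_abs _ _).2 h2)
  have h6 : ((((K * L) ^ (K * L) * ((2 * S * (B₁ + B₂)) ^ K * (2 ^ lam) ^ (4 * S * L)) ^ (K * L)
      : ℕ)) : ℤ) < ((2 ^ ((K * L) * (K * L - K)) : ℕ) : ℤ) := Int.ofNat_lt.2 h4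
  have h7 : ((2 ^ ((K * L) * (K * L - K)) : ℕ) : ℤ) = (2 : ℤ) ^ ((K * L) * (K * L - K)) :=
    Nat.cast_pow _ _
  rw [h7] at h6
  exact absurd (h5.trans h3) (not_le.2 h6)

private theorem p7_small {α β B₁ B₂ lam V : ℕ} (hα : 1 ≤ α) (hβ : 1 ≤ β)
    (hαl : α ≤ 2 ^ lam) (hβl : β ≤ 2 ^ lam) (h1 : lam * B₁ ≤ V) (h2 : lam * B₂ ≤ V)
    (hne : α ^ B₁ ≠ β ^ B₂) : ¬ (2 : ℤ) ^ V ∣ (α : ℤ) ^ B₁ - (β : ℤ) ^ B₂ := by
  intro hd
  have h3 : α ^ B₁ ≤ 2 ^ V := by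
    calc α ^ B₁ ≤ (2 ^ lam) ^ B₁ := Nat.pow_le_pow_left hαl _
      _ = 2 ^ (lam * B₁) := by rw [← pow_mul]
      _ ≤ 2 ^ V := Nat.pow_le_pow_right (by norm_num) h1
  have h4 : β ^ B₂ ≤ 2 ^ V := by
    calc β ^ B₂ ≤ (2 ^ lam) ^ B₂ := Nat.pow_le_pow_left hβl _
      _ = 2 ^ (lam * B₂) := by rw [← pow_mul]
      _ ≤ 2 ^ V := Nat.pow_le_pow_right (by norm_num) h2
  have h5 : 1 ≤ α ^ B₁ := Nat.one_le_pow _ _ hα
  have h6 : 1 ≤ β ^ B₂ := Nat.one_le_pow _ _ hβ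
  have h3' : (α : ℤ) ^ B₁ ≤ 2 ^ V := by exact_mod_cast h3
  have h4' : (β : ℤ) ^ B₂ ≤ 2 ^ V := by exact_mod_cast h4
  have h5' : 1 ≤ (α : ℤ) ^ B₁ := by exact_mod_cast h5
  have h6' : 1 ≤ (β : ℤ) ^ B₂ := by exact_mod_cast h6
  have hne' : (α : ℤ) ^ B₁ - (β : ℤ) ^ B₂ ≠ 0 := by
    intro h
    apply hne
    have h7 : (α : ℤ) ^ B₁ = (β : ℤ) ^ B₂ := by linarith
    exact_mod_cast h7
  have h7 := Int.le_of_dvd (abs_pos.2 hne') ((dvd_abs _ _).2 hd)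
  have h8 : |(α : ℤ) ^ B₁ - (β : ℤ) ^ B₂| < 2 ^ V := by
    rw [abs_lt]
    constructor <;> linarith
  exact absurd h7 (not_le.2 h8)

/-- coprime exponents -/
theorem two_adic_coprime {α β B₁ B₂ lam b : ℕ} (hα : 2 ≤ α) (hβ : 2 ≤ β) (hI : Indep α β)
    (hα8 : α % 8 = 1) (hβ8 : β % 8 = 1) (hαl : α ≤ 2 ^ lam) (hβl : β ≤ 2 ^ lam)
    (hc : B₁.Coprime B₂) (hB₁ : 0 < B₁) (hB₂ : 0 < B₂) (hB₁b : B₁ ≤ 2 ^ b) (hB₂b : B₂ ≤ 2 ^ b) :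
    ¬ (2 : ℤ) ^ (2 ^ 42 * (b + lam) ^ 8) ∣ (α : ℤ) ^ B₁ - (β : ℤ) ^ B₂ := by
  have hlam : 1 ≤ lam := p7_lam hα hαl
  by_cases hbig : 2048 * (b + lam) * lam ≤ max B₁ B₂
  · by_cases hodd : Odd B₂
    · exact two_adic_odd hα hβ hI hα8 hβ8 hαl hβl hc hB₁ hB₂ hB₁b hB₂b hbig hodd
    · have hodd1 : Odd B₁ := by
        rw [← Nat.not_even_iff_odd]
        intro he
        rw [Nat.not_odd_iff_even] at hodd
        have h1 : 2 ∣ Nat.gcd B₁ B₂ := Nat.dvd_gcd he.two_dvd hodd.two_dvd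
        rw [hc] at h1
        omega
      have hI' : Indep β α := fun i j hi hj h => hI j i hj hi h.symm
      have h1 := two_adic_odd hβ hα hI' hβ8 hα8 hβl hαl hc.symm hB₂ hB₁ hB₂b hB₁b
        (by rw [max_comm]; exact hbig) hodd1
      intro h2
      exact h1 ((dvd_sub_comm).1 h2)
  · push Not at hbig
    have h1 : lam * (2048 * (b + lam) * lam) ≤ 2 ^ 42 * (b + lam) ^ 8 := by
      have hs : 1 ≤ b + lam := by omega
      calc lam * (2048 * (b + lam) * lam)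
          ≤ (b + lam) * (2048 * (b + lam) * (b + lam)) :=
            Nat.mul_le_mul (by omega) (Nat.mul_le_mul_left _ (by omega))
        _ = 2048 * (b + lam) ^ 3 := by ring
        _ ≤ 2 ^ 42 * (b + lam) ^ 8 :=
            Nat.mul_le_mul (by norm_num) (Nat.pow_le_pow_right hs (by norm_num))
    refine p7_small (by omega) (by omega) hαl hβl ?_ ?_ (hI B₁ B₂ hB₁ hB₂)
    · exact (Nat.mul_le_mul_left _ ((le_max_left B₁ B₂).trans hbig.le)).trans h1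
    · exact (Nat.mul_le_mul_left _ ((le_max_right B₁ B₂).trans hbig.le)).trans h1

end Pool.Agent.LibTL52
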