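import Pool.Agent.LibTL52.Defs

/-!
Perturbation of a determinant.
-/

set_option autoImplicit false

namespace Pool.Agent.LibTL52

private theorem q1_prod {n : Type} [DecidableEq n] (s : Finset n) (a a' : n → ℝ) {F δ : ℝ}
    (hF : 0 ≤ F) (hδ : 0 ≤ δ) (ha : ∀ i, |a i| ≤ F) (ha' : ∀ i, |a' i - a i| ≤ δ * F) :
    |∏ i ∈ s, a i| ≤ F ^ s.card ∧
      |∏ i ∈ s, a' i - ∏ i ∈ s, a i| ≤ F ^ s.card * ((1 + δ) ^ s.card - 1) := by
  induction s using Finset.induction_on with
  | empty => simp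
  | insert x s hx ih =>
    obtain ⟨h1, h2⟩ := ih
    rw [Finset.prod_insert hx, Finset.prod_insert hx, Finset.card_insert_of_notMem hx]
    refine ⟨?_, ?_⟩
    · rw [abs_mul, pow_succ, mul_comm (F ^ s.card)]
      exact mul_le_mul (ha x) h1 (abs_nonneg _) hF
    · have h3 : a' x * ∏ i ∈ s, a' i - a x * ∏ i ∈ s, a i =
          a' x * (∏ i ∈ s, a' i - ∏ i ∈ s, a i) + (a' x - a x) * ∏ i ∈ s, a i := by ring
      have h4 : |a' x| ≤ (1 + δ) * F := by
        have h5 : a' x = a x + (a' x - a x) := by ring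
        rw [h5]
        refine (abs_add_le _ _).trans ?_
        linarith [ha x, ha' x]
      have h6 : 0 ≤ F ^ s.card * ((1 + δ) ^ s.card - 1) := le_trans (abs_nonneg _) h2
      rw [h3]
      calc |a' x * (∏ i ∈ s, a' i - ∏ i ∈ s, a i) + (a' x - a x) * ∏ i ∈ s, a i|
          ≤ |a' x| * |∏ i ∈ s, a' i - ∏ i ∈ s, a i| + |a' x - a x| * |∏ i ∈ s, a i| := by
            refine (abs_add_le _ _).trans ?_
            rw [abs_mul, abs_mul]
        _ ≤ (1 + δ) * F * (F ^ s.card * ((1 + δ) ^ s.card - 1)) + δ * F * F ^ s.card :=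
            add_le_add (mul_le_mul h4 h2 (abs_nonneg _) (by positivity))
              (mul_le_mul (ha' x) h1 (abs_nonneg _) (by positivity))
        _ = F ^ (s.card + 1) * ((1 + δ) ^ (s.card + 1) - 1) := by ring

theorem det_perturb {n : Type} [Fintype n] [DecidableEq n] (A A' : Matrix n n ℝ) {F δ : ℝ}
    (hF : 0 ≤ F) (hδ : 0 ≤ δ) (hA : ∀ i j, |A i j| ≤ F) (hA' : ∀ i j, |A' i j - A i j| ≤ δ * F) :
    |A'.det - A.det| ≤ ((Fintype.card n).factorial : ℝ) * F ^ Fintype.card n *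
      ((1 + δ) ^ Fintype.card n - 1) := by
  rw [Matrix.det_apply, Matrix.det_apply, ← Finset.sum_sub_distrib]
  refine (Finset.abs_sum_le_sum_abs _ _).trans ?_
  have h1 : ∀ σ ∈ (Finset.univ : Finset (Equiv.Perm n)),
      |Equiv.Perm.sign σ • ∏ i, A' (σ i) i - Equiv.Perm.sign σ • ∏ i, A (σ i) i| ≤
      F ^ Fintype.card n * ((1 + δ) ^ Fintype.card n - 1) := by
    intro σ _
    have h2 := (q1_prod Finset.univ (fun i => A (σ i) i) (fun i => A' (σ i) i) hF hδ
      (fun i => hA _ _) (fun i => hA' _ _)).2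
    rw [Finset.card_univ] at h2
    rcases Int.units_eq_one_or (Equiv.Perm.sign σ) with h | h
    · rw [h, one_smul, one_smul]; exact h2
    · rw [h, Units.neg_smul, Units.neg_smul, one_smul, one_smul, ← abs_neg]
      have h3 : -(-∏ i, A' (σ i) i - -∏ i, A (σ i) i) = ∏ i, A' (σ i) i - ∏ i, A (σ i) i := by
        ring
      rw [h3]; exact h2
  refine (Finset.sum_le_card_nsmul _ _ _ h1).trans ?_
  rw [Finset.card_univ, Fintype.card_perm, nsmul_eq_mul, mul_assoc]

theorem pow_one_add_sub_one_le {n : ℕ} {δ : ℝ} (hδ : 0 ≤ δ) (h : n * δ ≤ 1) :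
    (1 + δ) ^ n - 1 ≤ 2 * n * δ := by
  have h0 : 0 ≤ (n : ℝ) * δ := by positivity
  have h1 : (1 + δ) ^ n ≤ Real.exp (n * δ) := by
    rw [Real.exp_nat_mul]
    refine pow_le_pow_left₀ (by positivity) ?_ n
    have := Real.add_one_le_exp δ
    linarith
  have h2 := Real.abs_exp_sub_one_sub_id_le (x := n * δ) (by rw [abs_of_nonneg h0]; exact h)
  have h3 := (abs_le.1 h2).2
  nlinarith

end Pool.Agent.LibTL52
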