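import Pool.Agent.LibTL52.Defs

/-!
The entries of the interpolation matrix are close to values of `ζ ↦ (B₂ ζ) ^ k exp (l log α ζ)`.
-/

set_option autoImplicit false

namespace Pool.Agent.LibTL52

/-- with `Λ = B₁ log α - B₂ log β` and `ζ = r + s B₁ / B₂` -/
theorem entry_eq {α β B₁ B₂ : ℕ} (hα : 0 < α) (hβ : 0 < β) (hB₂ : 0 < B₂) (r s k l : ℕ) :
    (((r : ℝ) * B₂ + s * B₁) ^ k * ((α : ℝ) ^ r * (β : ℝ) ^ s) ^ l) =
      ((B₂ : ℝ) ^ k * ((r + s * (B₁ / B₂ : ℝ)) ^ k *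
        Real.exp (l * Real.log α * (r + s * (B₁ / B₂ : ℝ))))) *
      Real.exp (-(l * s * (B₁ * Real.log α - B₂ * Real.log β) / B₂)) := by
  have hα' : (0 : ℝ) < α := by exact_mod_cast hα
  have hβ' : (0 : ℝ) < β := by exact_mod_cast hβ
  have hB' : (0 : ℝ) < B₂ := by exact_mod_cast hB₂
  have h1 : ((α : ℝ) ^ r * (β : ℝ) ^ s) ^ l =
      Real.exp (l * (r * Real.log α + s * Real.log β)) := by
    rw [Real.exp_nat_mul, Real.exp_add, Real.exp_nat_mul, Real.exp_nat_mul, Real.exp_log hα',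
      Real.exp_log hβ']
  have h2 : (r : ℝ) * B₂ + s * B₁ = B₂ * (r + s * (B₁ / B₂ : ℝ)) := by
    field_simp
  have h3 : (l : ℝ) * (r * Real.log α + s * Real.log β) =
      l * Real.log α * (r + s * (B₁ / B₂ : ℝ)) +
        -(l * s * (B₁ * Real.log α - B₂ * Real.log β) / B₂) := by
    field_simp
    ring
  rw [h1, h2, h3, Real.exp_add, mul_pow]
  ring

/-- the ratio of the exponents is bounded if the linear form is small -/
theorem ratio_le {α β B₁ B₂ lam : ℕ} (hα : 2 ≤ α) (hβ : 2 ≤ β) (hβl : β ≤ 2 ^ lam)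
    (hB₁ : 0 < B₁) (hB₂ : 0 < B₂)
    (h : |(B₁ : ℝ) * Real.log α - B₂ * Real.log β| ≤ 1) : (B₁ / B₂ : ℝ) ≤ lam + 2 := by
  have hB1' : (0 : ℝ) < B₁ := by exact_mod_cast hB₁
  have hB2' : (1 : ℝ) ≤ B₂ := by exact_mod_cast hB₂
  have hB2'' : (0 : ℝ) < B₂ := by linarith
  have hl2 : (0.69 : ℝ) < Real.log 2 := by
    have := Real.log_two_gt_d9
    linarith
  have h1 : Real.log 2 ≤ Real.log α := by
    apply Real.log_le_log (by norm_num)
    exact_mod_cast hα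
  have h2 : Real.log β ≤ lam * Real.log 2 := by
    rw [← Real.log_pow]
    apply Real.log_le_log
    · have : 0 < β := by omega
      exact_mod_cast this
    · exact_mod_cast hβl
  have h3 := (abs_le.1 h).2
  have h4 : (B₁ : ℝ) * Real.log 2 ≤ B₂ * (lam * Real.log 2) + B₂ * 1 := by
    have h5 : (B₁ : ℝ) * Real.log 2 ≤ B₁ * Real.log α := mul_le_mul_of_nonneg_left h1 hB1'.le
    have h6 : (B₂ : ℝ) * Real.log β ≤ B₂ * (lam * Real.log 2) :=
      mul_le_mul_of_nonneg_left h2 hB2''.le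
    linarith
  rw [div_le_iff₀ hB2'']
  have h7 : (B₁ : ℝ) * Real.log 2 ≤ ((lam + 2) * B₂) * Real.log 2 := by
    have h8 : (B₂ : ℝ) * 1 ≤ B₂ * (2 * Real.log 2) :=
      mul_le_mul_of_nonneg_left (by linarith) hB2''.le
    calc (B₁ : ℝ) * Real.log 2 ≤ B₂ * (lam * Real.log 2) + B₂ * 1 := h4
      _ ≤ B₂ * (lam * Real.log 2) + B₂ * (2 * Real.log 2) := by linarith
      _ = ((lam + 2) * B₂) * Real.log 2 := by ring
  exact le_of_mul_le_mul_right h7 (by linarith)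

theorem abs_exp_neg_sub_one_le {t : ℝ} (h : |t| ≤ 1) : |Real.exp (-t) - 1| ≤ 2 * |t| := by
  have h1 := Real.abs_exp_sub_one_le (x := -t) (by rwa [abs_neg])
  rwa [abs_neg] at h1

end Pool.Agent.LibTL52
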