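import Pool.Agent.LibTL52.Defs

/-!
A lower bound for the product of the factorials.
-/

set_option autoImplicit false

namespace Pool.Agent.LibTL52

private theorem q3_factorial {a q : ℕ} (h : 3 * a ≤ q) : a ^ q ≤ q.factorial := by
  have h1 := Real.pow_div_factorial_le_exp ((3 * a : ℕ) : ℝ) (Nat.cast_nonneg _) q
  have h2 : Real.exp ((3 * a : ℕ) : ℝ) ≤ 3 ^ q := by
    calc Real.exp ((3 * a : ℕ) : ℝ) ≤ Real.exp (q : ℝ) := by
          apply Real.exp_le_exp.2
          exact_mod_cast h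
      _ = Real.exp 1 ^ q := by rw [← Real.exp_nat_mul, mul_one]
      _ ≤ 3 ^ q := by
          apply pow_le_pow_left₀ (Real.exp_pos _).le
          have := Real.exp_one_lt_d9
          linarith
  have h3 : ((3 * a : ℕ) : ℝ) ^ q / q.factorial ≤ 3 ^ q := h1.trans h2
  have hq : (0 : ℝ) < q.factorial := by exact_mod_cast q.factorial_pos
  rw [div_le_iff₀ hq] at h3
  push_cast at h3
  rw [mul_pow] at h3
  have h4 : (a : ℝ) ^ q ≤ q.factorial := le_of_mul_le_mul_left h3 (by positivity)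
  exact_mod_cast h4

theorem superfactorial_ge {N H : ℕ} (hN : Even N) (h6 : 6 ≤ N) (hH : 1 ≤ H)
    (h : 1536 * H ^ 3 ≤ N) :
    2 ^ (3 * N ^ 2 - 2 * N) * H ^ (N ^ 2) ≤ ∏ q ∈ Finset.range N, q.factorial := by
  obtain ⟨M, hM⟩ := hN
  have hNM : N = 2 * M := by omega
  set T := ∑ q ∈ Finset.Ico M (2 * M), q with hT
  have hT2 : 2 * T + M = 3 * M ^ 2 := by
    have h1 : T * 2 = (2 * M) * (2 * M - 1) - M * (M - 1) := by
      have h2 := Finset.sum_range_id_mul_two (2 * M)
      have h3 := Finset.sum_range_id_mul_two M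
      have h4 : ∑ q ∈ Finset.range M, q + T = ∑ q ∈ Finset.range (2 * M), q := by
        rw [hT]
        exact Finset.sum_range_add_sum_Ico (fun q => q) (by omega)
      omega
    obtain ⟨m, rfl⟩ : ∃ m, M = m + 1 := ⟨M - 1, by omega⟩
    have h2 : 2 * (m + 1) - 1 = 2 * m + 1 := by omega
    have h3 : m + 1 - 1 = m := by omega
    rw [h2, h3] at h1
    have h4 : 2 * (m + 1) * (2 * m + 1) = 3 * m ^ 2 + 5 * m + 2 + (m + 1) * m := by ring
    rw [h4, Nat.add_sub_cancel] at h1
    have h5 : 3 * (m + 1) ^ 2 = 3 * m ^ 2 + 5 * m + 2 + (m + 1) := by ring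
    rw [h5]
    omega
  have hprod : (256 * H ^ 3) ^ T ≤ ∏ q ∈ Finset.range N, q.factorial := by
    rw [hNM, hT, ← Finset.prod_pow_eq_pow_sum]
    calc ∏ q ∈ Finset.Ico M (2 * M), (256 * H ^ 3) ^ q
        ≤ ∏ q ∈ Finset.Ico M (2 * M), q.factorial := by
          apply Finset.prod_le_prod' 
          intro q hq
          rw [Finset.mem_Ico] at hq
          apply q3_factorial
          omega
      _ ≤ (∏ q ∈ Finset.range M, q.factorial) * ∏ q ∈ Finset.Ico M (2 * M), q.factorial := by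
          apply Nat.le_mul_of_pos_left
          exact Finset.prod_pos fun q _ => q.factorial_pos
      _ = ∏ q ∈ Finset.range (2 * M), q.factorial :=
          Finset.prod_range_mul_prod_Ico _ (by omega)
  refine le_trans ?_ hprod
  have h8 : (256 * H ^ 3) ^ T = 2 ^ (8 * T) * H ^ (3 * T) := by
    rw [mul_pow, ← pow_mul, pow_mul 2 8 T]
    norm_num
  rw [h8]
  have h9 : 3 * N ^ 2 - 2 * N = 8 * T := by
    have : 3 * N ^ 2 = 8 * T + 2 * N := by
      rw [hNM]
      nlinarith [hT2]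
    omega
  rw [h9]
  apply Nat.mul_le_mul_left
  apply Nat.pow_le_pow_right hH
  rw [hNM]
  have h10 : 3 ≤ M := by omega
  nlinarith [hT2, Nat.mul_le_mul_right M h10]

end Pool.Agent.LibTL52
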