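import Pool.Agent.LibTL52.Q3

/-!
The numerical inequalities of the archimedean case.
-/

set_option autoImplicit false

namespace Pool.Agent.LibTL52

private theorem Q4_H2 {N H : ℕ} (hH : 1 ≤ H) (h : 1536 * H ^ 3 ≤ N) :
    1536 * H ^ 2 ≤ N ∧ 1536 ≤ N := by
  have h1 : H ^ 2 ≤ H ^ 3 := Nat.pow_le_pow_right hH (by norm_num)
  have h2 : 1 ≤ H ^ 2 := Nat.one_le_pow _ _ hH
  constructor <;> omega

private theorem Q4_NN (N : ℕ) : N ^ N ≤ 2 ^ (N ^ 2) := by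
  calc N ^ N ≤ (2 ^ N) ^ N := Nat.pow_le_pow_left Nat.lt_two_pow_self.le N
    _ = 2 ^ (N ^ 2) := by rw [← pow_mul, sq]

private theorem Q4_DN {N K L D b : ℕ} (hNK : N = K * L) (hL : 2 ^ b * (D + N) ≤ 2 ^ L) :
    (2 ^ b * (D + N)) ^ (N * K) ≤ 2 ^ (N ^ 2) := by
  calc (2 ^ b * (D + N)) ^ (N * K) ≤ (2 ^ L) ^ (N * K) := Nat.pow_le_pow_left hL _
    _ = 2 ^ (N ^ 2) := by
      rw [← pow_mul]
      congr 1
      rw [sq]
      nth_rewrite 3 [hNK]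
      ring

/-- main term -/
theorem numeric_main {N K L H D b : ℕ} (hN : Even N) (hNK : N = K * L) (hH : 1 ≤ H)
    (h : 1536 * H ^ 3 ≤ N) (hK : 1 ≤ K) (hL : 2 ^ b * (D + N) ≤ 2 ^ L) :
    4 * (2 ^ b) ^ (N * K) * N ^ N * H ^ (N * (N - 1)) * 4 ^ (N * H ^ 2) * (D + N) ^ (N * K) ≤
      ∏ q ∈ Finset.range N, q.factorial := by
  obtain ⟨hH2, hN0⟩ := Q4_H2 hH h
  refine le_trans ?_ (superfactorial_ge hN (by omega) hH h)
  have h1 : H ^ (N * (N - 1)) ≤ H ^ (N ^ 2) := by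
    apply Nat.pow_le_pow_right hH
    rw [sq]
    exact Nat.mul_le_mul le_rfl (Nat.sub_le _ _)
  have h2 : (4 : ℕ) ^ (N * H ^ 2) = 2 ^ (2 * (N * H ^ 2)) := by
    rw [pow_mul 2 2 (N * H ^ 2)]
    norm_num
  have h3 : 2 + (N ^ 2 + N ^ 2 + 2 * (N * H ^ 2)) ≤ 3 * N ^ 2 - 2 * N := by
    have h4 : 1536 * (N * H ^ 2) ≤ N ^ 2 := by nlinarith
    have h5 : 1536 * N ≤ N ^ 2 := by nlinarith
    omega
  calc 4 * (2 ^ b) ^ (N * K) * N ^ N * H ^ (N * (N - 1)) * 4 ^ (N * H ^ 2) * (D + N) ^ (N * K)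
      = 2 ^ 2 * ((2 ^ b * (D + N)) ^ (N * K) * N ^ N * 2 ^ (2 * (N * H ^ 2))) *
          H ^ (N * (N - 1)) := by
        rw [h2, mul_pow]
        ring
    _ ≤ 2 ^ 2 * (2 ^ (N ^ 2) * 2 ^ (N ^ 2) * 2 ^ (2 * (N * H ^ 2))) * H ^ (N ^ 2) := by
        apply Nat.mul_le_mul _ h1
        apply Nat.mul_le_mul le_rfl
        apply Nat.mul_le_mul _ le_rfl
        exact Nat.mul_le_mul (Q4_DN hNK hL) (Q4_NN N)
    _ = 2 ^ (2 + (N ^ 2 + N ^ 2 + 2 * (N * H ^ 2))) * H ^ (N ^ 2) := by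
        rw [pow_add, pow_add, pow_add]
    _ ≤ 2 ^ (3 * N ^ 2 - 2 * N) * H ^ (N ^ 2) := by
        apply Nat.mul_le_mul _ le_rfl
        exact Nat.pow_le_pow_right (by norm_num) h3

/-- the parameters -/
theorem numeric_param {lam b L σ S K N H D : ℕ} (hlam : 1 ≤ lam) (hL : L = 256 * (b + lam))
    (hσ : σ = 2 ^ 17 * L * lam ^ 3) (hS : S = L * σ ^ 2) (hK : K = L * σ ^ 4) (hN : N = K * L)
    (hH : H = 4 * L * lam * σ) (hD : D = 16 * S * lam) :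
    Even N ∧ 1536 * H ^ 3 ≤ N ∧ 2 ^ b * (D + N) ≤ 2 ^ L ∧ D * (L * lam) = H ^ 2 ∧
      K * L ≤ S ^ 2 ∧ N ≤ 2 ^ 116 * (b + lam) ^ 18 := by
  have hL256 : 256 * lam ≤ L := by omega
  have hL1 : 1 ≤ L := by omega
  have hlam3 : 1 ≤ lam ^ 3 := Nat.one_le_pow _ _ hlam
  have hσ1 : 1 ≤ σ := by
    rw [hσ]
    exact Nat.one_le_iff_ne_zero.mpr (by positivity)
  -- closed form of `N`
  have hN1 : N = L ^ 2 * σ ^ 4 := by rw [hN, hK]; ring
  have hN2 : N = 2 ^ 116 * ((b + lam) ^ 6 * lam ^ 12) := by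
    rw [hN1, hσ, hL]
    ring
  have hN3 : N ≤ 2 ^ 116 * (b + lam) ^ 18 := by
    rw [hN2]
    apply Nat.mul_le_mul le_rfl
    calc (b + lam) ^ 6 * lam ^ 12 ≤ (b + lam) ^ 6 * (b + lam) ^ 12 := by
          apply Nat.mul_le_mul le_rfl
          exact Nat.pow_le_pow_left (by omega) _
      _ = (b + lam) ^ 18 := by ring
  refine ⟨?_, ?_, ?_, ?_, ?_, hN3⟩
  · rw [hN, hL]
    apply Even.mul_left
    apply Even.mul_right
    decide
  · have h1 : 98304 * (L * lam ^ 3) ≤ σ := by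
      rw [hσ]
      have : 0 ≤ L * lam ^ 3 := Nat.zero_le _
      nlinarith
    calc 1536 * H ^ 3 = (98304 * (L * lam ^ 3)) * (L ^ 2 * σ ^ 3) := by
          rw [hH]
          ring
      _ ≤ σ * (L ^ 2 * σ ^ 3) := Nat.mul_le_mul h1 le_rfl
      _ = N := by
          rw [hN1]
          ring
  · have hDN : D ≤ N := by
      rw [hD, hS, hN1]
      calc 16 * (L * σ ^ 2) * lam = (16 * lam) * L * σ ^ 2 := by ring
        _ ≤ L * L * σ ^ 4 := by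
            apply Nat.mul_le_mul
            · apply Nat.mul_le_mul _ le_rfl
              omega
            · exact Nat.pow_le_pow_right hσ1 (by norm_num)
        _ = L ^ 2 * σ ^ 4 := by ring
    calc 2 ^ b * (D + N) ≤ 2 ^ b * (2 * (2 ^ 116 * (b + lam) ^ 18)) := by
          apply Nat.mul_le_mul le_rfl
          omega
      _ ≤ 2 ^ b * (2 * (2 ^ 116 * (2 ^ (b + lam)) ^ 18)) := by
          apply Nat.mul_le_mul le_rfl
          apply Nat.mul_le_mul le_rfl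
          apply Nat.mul_le_mul le_rfl
          exact Nat.pow_le_pow_left Nat.lt_two_pow_self.le _
      _ = 2 ^ (b + (1 + (116 + (b + lam) * 18))) := by
          rw [← pow_mul 2 (b + lam) 18, pow_add 2 b, pow_add 2 1, pow_add 2 116, pow_one]
      _ ≤ 2 ^ L := by
          apply Nat.pow_le_pow_right (by norm_num)
          omega
  · rw [hD, hH, hS]
    ring
  · rw [hK, hS]
    apply le_of_eq
    ring

/-- the perturbation -/
theorem numeric_pert {N K L H D S b : ℕ} (hNK : N = K * L) (hH : 1 ≤ H)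
    (h : 1536 * H ^ 3 ≤ N) (hK : 1 ≤ K) (hL : 2 ^ b * (D + N) ≤ 2 ^ L) (hS : S ≤ N) :
    4 * (N ^ N * ((2 ^ b * (D + N)) ^ K * 4 ^ (H ^ 2)) ^ N * (8 * N * S * L)) ≤
      2 ^ (4 * N ^ 2) := by
  obtain ⟨hH2, hN0⟩ := Q4_H2 hH h
  have hLN : L ≤ N := by
    rw [hNK]
    exact Nat.le_mul_of_pos_left L hK
  have hNlt : N ≤ 2 ^ N := Nat.lt_two_pow_self.le
  have h1 : ((2 ^ b * (D + N)) ^ K * 4 ^ (H ^ 2)) ^ N ≤ 2 ^ (N ^ 2) * 2 ^ (2 * (N * H ^ 2)) := by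
    rw [mul_pow, ← pow_mul, ← pow_mul]
    apply Nat.mul_le_mul
    · rw [mul_comm K N]
      exact Q4_DN hNK hL
    · apply le_of_eq
      rw [pow_mul 2 2 (N * H ^ 2), mul_comm (H ^ 2) N]
      norm_num
  have h2 : 8 * N * S * L ≤ 2 ^ 3 * 2 ^ N * 2 ^ N * 2 ^ N := by
    apply Nat.mul_le_mul
    · apply Nat.mul_le_mul
      · apply Nat.mul_le_mul _ hNlt
        norm_num
      · exact hS.trans hNlt
    · exact hLN.trans hNlt
  have h3 : 2 + (N ^ 2 + (N ^ 2 + 2 * (N * H ^ 2)) + (3 + N + N + N)) ≤ 4 * N ^ 2 := by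
    have h4 : 1536 * (N * H ^ 2) ≤ N ^ 2 := by nlinarith
    have h5 : 1536 * N ≤ N ^ 2 := by nlinarith
    omega
  calc 4 * (N ^ N * ((2 ^ b * (D + N)) ^ K * 4 ^ (H ^ 2)) ^ N * (8 * N * S * L))
      ≤ 2 ^ 2 * (2 ^ (N ^ 2) * (2 ^ (N ^ 2) * 2 ^ (2 * (N * H ^ 2))) *
          (2 ^ 3 * 2 ^ N * 2 ^ N * 2 ^ N)) := by
        apply Nat.mul_le_mul (by norm_num)
        apply Nat.mul_le_mul _ h2
        exact Nat.mul_le_mul (Q4_NN N) h1
    _ = 2 ^ (2 + (N ^ 2 + (N ^ 2 + 2 * (N * H ^ 2)) + (3 + N + N + N))) := by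
        simp only [pow_add]
    _ ≤ 2 ^ (4 * N ^ 2) := Nat.pow_le_pow_right (by norm_num) h3

end Pool.Agent.LibTL52
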