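import Pool.Agent.LibTL52.Defs

/-!
Taylor coefficients of `X ^ k` times a truncated exponential.
-/

set_option autoImplicit false
open Polynomial

namespace Pool.Agent.LibTL52

private theorem w3_E (Q j : ℕ) {w D : ℝ} (hw : 0 ≤ w) (hD : 0 ≤ D) :
    (hasseDeriv j (∑ n ∈ Finset.range Q,
      (C (w ^ n / (n.factorial : ℝ)) * X ^ n : ℝ[X]))).eval D ≤
      w ^ j / (j.factorial : ℝ) * Real.exp (w * D) := by
  rw [map_sum, eval_finsetSum]
  have h1 : ∀ n, (hasseDeriv j (C (w ^ n / (n.factorial : ℝ)) * X ^ n : ℝ[X])).eval D =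
      (n.choose j : ℝ) * (w ^ n / (n.factorial : ℝ)) * D ^ (n - j) := by
    intro n
    rw [C_mul_X_pow_eq_monomial, hasseDeriv_monomial, eval_monomial]
  simp only [h1]
  have h2 : ∑ n ∈ Finset.range Q, (n.choose j : ℝ) * (w ^ n / (n.factorial : ℝ)) * D ^ (n - j) ≤
      ∑ n ∈ Finset.range (j + Q),
        (n.choose j : ℝ) * (w ^ n / (n.factorial : ℝ)) * D ^ (n - j) := by
    apply Finset.sum_le_sum_of_subset_of_nonneg
    · exact Finset.range_mono (by omega)
    · intro i _ _
      positivity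
  refine h2.trans ?_
  rw [Finset.sum_range_add]
  have h3 : ∑ n ∈ Finset.range j, (n.choose j : ℝ) * (w ^ n / (n.factorial : ℝ)) * D ^ (n - j) =
      0 := by
    apply Finset.sum_eq_zero
    intro n hn
    rw [Nat.choose_eq_zero_of_lt (Finset.mem_range.1 hn)]
    simp
  rw [h3, zero_add]
  have h4 : ∀ m, ((j + m).choose j : ℝ) * (w ^ (j + m) / ((j + m).factorial : ℝ)) *
      D ^ (j + m - j) = w ^ j / (j.factorial : ℝ) * ((w * D) ^ m / (m.factorial : ℝ)) := by
    intro m
    have h5 : ((j + m).choose j : ℝ) * j.factorial * m.factorial = (j + m).factorial := by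
      have h6 := Nat.choose_mul_factorial_mul_factorial (Nat.le_add_right j m)
      rw [Nat.add_sub_cancel_left] at h6
      exact_mod_cast h6
    have hj : (j.factorial : ℝ) ≠ 0 := by positivity
    have hm : (m.factorial : ℝ) ≠ 0 := by positivity
    have hjm : ((j + m).factorial : ℝ) ≠ 0 := by positivity
    rw [Nat.add_sub_cancel_left, pow_add, mul_pow]
    field_simp
    rw [← h5]
    ring
  simp only [h4]
  rw [← Finset.mul_sum]
  apply mul_le_mul_of_nonneg_left _ (by positivity)
  exact Real.sum_le_exp_of_nonneg (by positivity) Q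

theorem hasse_bound {k K N Q q : ℕ} {w W D : ℝ} (hw : 0 ≤ w) (hwW : w ≤ W) (hW : 1 ≤ W)
    (hD : 0 ≤ D) (hk : k ≤ K) (hq : q ≤ N) (hN : 1 ≤ N) :
    (hasseDeriv q (X ^ k * ∑ n ∈ Finset.range Q,
      (C (w ^ n / (n.factorial : ℝ)) * X ^ n : ℝ[X]))).eval D ≤
      W ^ q / (q.factorial : ℝ) * Real.exp (W * D) * (D + N) ^ K := by
  have hW0 : 0 ≤ W := by linarith
  have hN1 : (1 : ℝ) ≤ N := by exact_mod_cast hN
  rw [hasseDeriv_mul, eval_finsetSum]
  have h1 : ∀ ij ∈ Finset.HasAntidiagonal.antidiagonal q,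
      (hasseDeriv ij.1 (X ^ k : ℝ[X]) * hasseDeriv ij.2 (∑ n ∈ Finset.range Q,
      (C (w ^ n / (n.factorial : ℝ)) * X ^ n : ℝ[X]))).eval D ≤
      W ^ q / (q.factorial : ℝ) * Real.exp (W * D) *
        ((N : ℝ) ^ ij.1 * D ^ (k - ij.1) * (k.choose ij.1 : ℝ)) := by
    rintro ⟨i, j⟩ hij
    have hij' : i + j = q := Finset.HasAntidiagonal.mem_antidiagonal.1 hij
    simp only
    rw [eval_mul]
    have h2 : (hasseDeriv i (X ^ k : ℝ[X])).eval D = (k.choose i : ℝ) * D ^ (k - i) := by
      rw [← monomial_one_right_eq_X_pow, hasseDeriv_monomial, eval_monomial, mul_one]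
    rw [h2]
    have h3 := w3_E Q j hw hD
    have h4 : w ^ j / (j.factorial : ℝ) * Real.exp (w * D) ≤
        W ^ q / (q.factorial : ℝ) * (N : ℝ) ^ i * Real.exp (W * D) := by
      have h5 : w ^ j ≤ W ^ q := (pow_le_pow_left₀ hw hwW j).trans
        (pow_le_pow_right₀ hW (by omega))
      have h6 : Real.exp (w * D) ≤ Real.exp (W * D) :=
        Real.exp_le_exp.2 (mul_le_mul_of_nonneg_right hwW hD)
      have h7 : (q.factorial : ℝ) ≤ j.factorial * (N : ℝ) ^ i := by
        have h8 : q.factorial ≤ j.factorial * q ^ i := by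
          have h9 : (q - i).factorial * q.descFactorial i = q.factorial :=
            Nat.factorial_mul_descFactorial (by omega)
          have h10 : q - i = j := by omega
          rw [h10] at h9
          rw [← h9]
          exact Nat.mul_le_mul_left _ (Nat.descFactorial_le_pow q i)
        have h9 : j.factorial * q ^ i ≤ j.factorial * N ^ i :=
          Nat.mul_le_mul_left _ (Nat.pow_le_pow_left hq i)
        exact_mod_cast h8.trans h9
      have hj : (0 : ℝ) < (j.factorial : ℝ) := by positivity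
      have hq' : (0 : ℝ) < (q.factorial : ℝ) := by positivity
      refine mul_le_mul ?_ h6 (Real.exp_pos _).le (by positivity)
      rw [div_mul_eq_mul_div, div_le_div_iff₀ hj hq']
      calc w ^ j * (q.factorial : ℝ) ≤ W ^ q * (j.factorial * (N : ℝ) ^ i) :=
            mul_le_mul h5 h7 (by positivity) (by positivity)
        _ = W ^ q * (N : ℝ) ^ i * j.factorial := by ring
    calc (k.choose i : ℝ) * D ^ (k - i) * (hasseDeriv j (∑ n ∈ Finset.range Q,
          (C (w ^ n / (n.factorial : ℝ)) * X ^ n : ℝ[X]))).eval D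
        ≤ (k.choose i : ℝ) * D ^ (k - i) *
          (W ^ q / (q.factorial : ℝ) * (N : ℝ) ^ i * Real.exp (W * D)) :=
          mul_le_mul_of_nonneg_left (h3.trans h4) (by positivity)
      _ = W ^ q / (q.factorial : ℝ) * Real.exp (W * D) *
        ((N : ℝ) ^ i * D ^ (k - i) * (k.choose i : ℝ)) := by ring
  refine (Finset.sum_le_sum h1).trans ?_
  rw [← Finset.mul_sum]
  apply mul_le_mul_of_nonneg_left _ (by positivity)
  rw [Finset.Nat.sum_antidiagonal_eq_sum_range_succ_mk]
  simp only
  have h2 : ∑ i ∈ Finset.range q.succ, (N : ℝ) ^ i * D ^ (k - i) * (k.choose i : ℝ) ≤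
      ∑ i ∈ Finset.range (k + 1 + q.succ), (N : ℝ) ^ i * D ^ (k - i) * (k.choose i : ℝ) := by
    apply Finset.sum_le_sum_of_subset_of_nonneg
    · exact Finset.range_mono (by omega)
    · intro i _ _
      positivity
  refine h2.trans ?_
  rw [Finset.sum_range_add]
  have h3 : ∑ i ∈ Finset.range q.succ, (N : ℝ) ^ (k + 1 + i) * D ^ (k - (k + 1 + i)) *
      (k.choose (k + 1 + i) : ℝ) = 0 := by
    apply Finset.sum_eq_zero
    intro n _
    rw [Nat.choose_eq_zero_of_lt (by omega)]
    simp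
  rw [h3, add_zero, ← add_pow, add_comm (N : ℝ) D]
  exact pow_le_pow_right₀ (by linarith) hk

end Pool.Agent.LibTL52
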