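import Pool.Agent.LibTL52.W2
import Pool.Agent.LibTL52.W3

/-!
The determinant of the functions `ζ ↦ ζ ^ k exp (w ζ)`.
-/

set_option autoImplicit false

namespace Pool.Agent.LibTL52

private theorem w4_prod_pow (W : ℝ) (N : ℕ) :
    ∏ q ∈ Finset.range N, W ^ q = W ^ (N * (N - 1) / 2) := by
  rw [Finset.prod_pow_eq_pow_sum, Finset.sum_range_id]

private theorem w4_tendsto (x : ℝ) : Filter.Tendsto
    (fun Q : ℕ => ∑ n ∈ Finset.range Q, x ^ n / (n.factorial : ℝ)) Filter.atTop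
      (nhds (Real.exp x)) := by
  have h := (NormedSpace.expSeries_div_hasSum_exp (x : ℝ)).tendsto_sum_nat
  rw [← Real.exp_eq_exp_ℝ] at h
  exact h

private theorem w4_fin (n : ℕ) (k : Fin n → ℕ) (w : Fin n → ℝ) (ζ : Fin n → ℝ) (hn : 1 ≤ n)
    {K : ℕ} {W D : ℝ} (hk : ∀ j, k j ≤ K)
    (hw : ∀ j, 0 ≤ w j) (hwW : ∀ j, w j ≤ W) (hW : 1 ≤ W) (h0 : ∀ i, 0 ≤ ζ i)
    (hD : ∀ i, ζ i ≤ D) (hD0 : 0 ≤ D) :
    |(Matrix.of fun i j : Fin n => ζ i ^ k j * Real.exp (w j * ζ i)).det| ≤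
      ((n).factorial : ℝ) * (D * W) ^ (n * (n - 1) / 2) *
        (Real.exp (W * D) * (D + n) ^ K) ^ n /
        ∏ q ∈ Finset.range n, (q.factorial : ℝ) := by
  set f : ℕ → Fin n → Polynomial ℝ := fun Q j => Polynomial.X ^ k j * ∑ m ∈ Finset.range Q,
    (Polynomial.C (w j ^ m / (m.factorial : ℝ)) * Polynomial.X ^ m : Polynomial ℝ) with hf
  have heval : ∀ Q j x, (f Q j).eval x = x ^ k j * ∑ m ∈ Finset.range Q, (w j * x) ^ m / (m.factorial : ℝ) := by
    intro Q j x
    simp only [hf, Polynomial.eval_mul, Polynomial.eval_pow, Polynomial.eval_X,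
      Polynomial.eval_finsetSum, Polynomial.eval_C]
    congr 1
    refine Finset.sum_congr rfl fun m _ => ?_
    rw [mul_pow]
    ring
  have hcoeff : ∀ Q j m, 0 ≤ (f Q j).coeff m := by
    intro Q j m
    simp only [hf]
    rw [Polynomial.coeff_X_pow_mul']
    split_ifs
    · rw [Polynomial.finsetSum_coeff]
      apply Finset.sum_nonneg
      intro l _
      rw [Polynomial.coeff_C_mul_X_pow]
      split_ifs
      · exact div_nonneg (pow_nonneg (hw j) _) (Nat.cast_nonneg _)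
      · exact le_rfl
    · exact le_rfl
  set E : ℝ := Real.exp (W * D) * (D + n) ^ K with hE
  have hn0 : (0 : ℝ) < n := by exact_mod_cast hn
  have hbound : ∀ Q, |(Matrix.of fun i j : Fin n => (f Q j).eval (ζ i)).det| ≤
      (n.factorial : ℝ) * D ^ (n * (n - 1) / 2) *
        ∏ q ∈ Finset.range n, (W ^ q / (q.factorial : ℝ) * Real.exp (W * D) * (D + n) ^ K) := by
    intro Q
    apply abs_det_le n (f Q) (hcoeff Q) ζ h0 hD
    intro j q hq
    exact hasse_bound (hw j) (hwW j) hW hD0 (hk j) hq.le hn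
  have hlim : Filter.Tendsto (fun Q : ℕ => |(Matrix.of fun i j : Fin n => (f Q j).eval (ζ i)).det|)
      Filter.atTop (nhds |(Matrix.of fun i j : Fin n => ζ i ^ k j * Real.exp (w j * ζ i)).det|) := by
    apply Filter.Tendsto.abs
    simp only [Matrix.det_apply, Matrix.of_apply, heval]
    apply tendsto_finsetSum
    intro σ _
    apply Filter.Tendsto.const_smul
    apply tendsto_finsetProd
    intro j _
    exact (w4_tendsto (w j * ζ (σ j))).const_mul _
  have h1 := le_of_tendsto' hlim hbound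
  refine h1.trans (le_of_eq ?_)
  have h2 : ∏ q ∈ Finset.range n, (W ^ q / (q.factorial : ℝ) * Real.exp (W * D) * (D + n) ^ K) =
      (∏ q ∈ Finset.range n, W ^ q) / (∏ q ∈ Finset.range n, (q.factorial : ℝ)) * E ^ n := by
    have h3 : ∀ q ∈ Finset.range n, (W ^ q / (q.factorial : ℝ) * Real.exp (W * D) * (D + n) ^ K) =
        (W ^ q / (q.factorial : ℝ)) * E := by
      intro q _
      rw [hE]
      ring
    rw [Finset.prod_congr rfl h3, Finset.prod_mul_distrib, Finset.prod_div_distrib,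
      Finset.prod_const, Finset.card_range]
  rw [h2, w4_prod_pow, mul_pow]
  ring

theorem abs_det_exp_le {n : Type} [Fintype n] [DecidableEq n] (hn : 1 ≤ Fintype.card n)
    (k : n → ℕ) (w : n → ℝ) (ζ : n → ℝ) {K : ℕ} {W D : ℝ} (hk : ∀ j, k j ≤ K)
    (hw : ∀ j, 0 ≤ w j) (hwW : ∀ j, w j ≤ W) (hW : 1 ≤ W) (h0 : ∀ i, 0 ≤ ζ i)
    (hD : ∀ i, ζ i ≤ D) (hD0 : 0 ≤ D) :
    |(Matrix.of fun i j : n => ζ i ^ k j * Real.exp (w j * ζ i)).det| ≤
      ((Fintype.card n).factorial : ℝ) *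
        (D * W) ^ (Fintype.card n * (Fintype.card n - 1) / 2) *
        (Real.exp (W * D) * (D + Fintype.card n) ^ K) ^ Fintype.card n /
        ∏ q ∈ Finset.range (Fintype.card n), (q.factorial : ℝ) := by
  set e := Fintype.equivFin n with he
  have h1 := w4_fin (Fintype.card n) (fun j => k (e.symm j)) (fun j => w (e.symm j))
    (fun j => ζ (e.symm j)) hn (K := K) (W := W) (D := D) (fun j => hk _) (fun j => hw _)
    (fun j => hwW _) hW (fun j => h0 _) (fun j => hD _) hD0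
  have h2 : (Matrix.of fun i j : n => ζ i ^ k j * Real.exp (w j * ζ i)).det =
      (Matrix.of fun i j : Fin (Fintype.card n) =>
        ζ (e.symm i) ^ k (e.symm j) * Real.exp (w (e.symm j) * ζ (e.symm i))).det := by
    rw [← Matrix.det_submatrix_equiv_self e.symm]
    rfl
  rw [h2]
  exact h1

end Pool.Agent.LibTL52
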