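import Pool.Agent.LibTL52.Z5
import Pool.Agent.LibTL52.W4
import Pool.Agent.LibTL52.Q1
import Pool.Agent.LibTL52.Q2
import Pool.Agent.LibTL52.Q4

/-!
Archimedean linear forms in two logarithms, large coprime exponents.
-/

set_option autoImplicit false

namespace Pool.Agent.LibTL52

private theorem q5_lam {α lam : ℕ} (hα : 2 ≤ α) (hαl : α ≤ 2 ^ lam) : 1 ≤ lam := by
  by_contra h
  have h1 : lam = 0 := by omega
  subst h1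
  simp at hαl
  omega

private theorem q5_log {α lam : ℕ} (hα : 2 ≤ α) (hαl : α ≤ 2 ^ lam) :
    0 ≤ Real.log α ∧ Real.log α ≤ lam := by
  have h0 : (1 : ℝ) ≤ α := by exact_mod_cast (by omega : 1 ≤ α)
  refine ⟨Real.log_nonneg h0, ?_⟩
  have h1 : (α : ℝ) ≤ 2 ^ lam := by exact_mod_cast hαl
  have h2 : Real.log α ≤ Real.log (2 ^ lam) := Real.log_le_log (by linarith) h1
  rw [Real.log_pow] at h2
  have h3 : Real.log 2 ≤ 1 := by linarith [Real.log_two_lt_d9]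
  have h4 : (lam : ℝ) * Real.log 2 ≤ lam * 1 :=
    mul_le_mul_of_nonneg_left h3 (Nat.cast_nonneg _)
  linarith

private theorem q5_exp {x : ℝ} {n : ℕ} (h : x ≤ n) : Real.exp x ≤ 4 ^ n := by
  calc Real.exp x ≤ Real.exp n := Real.exp_le_exp.2 h
    _ = (Real.exp 1) ^ n := by rw [← Real.exp_nat_mul, mul_one]
    _ ≤ 4 ^ n := by
        apply pow_le_pow_left₀ (Real.exp_pos 1).le
        linarith [Real.exp_one_lt_d9]

/-- the size of the entries -/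
private theorem q5_entry {B₂ b k K l L H D N lam : ℕ} {ζ a : ℝ} (hB₂b : B₂ ≤ 2 ^ b)
    (hk : k ≤ K) (hl : l ≤ L) (ha0 : 0 ≤ a) (ha : a ≤ lam) (hζ0 : 0 ≤ ζ) (hζ : ζ ≤ D)
    (hN : 1 ≤ N) (hDW : D * (L * lam) = H ^ 2) :
    |(B₂ : ℝ) ^ k * (ζ ^ k * Real.exp (l * a * ζ))| ≤
      (2 ^ b * ((D : ℝ) + N)) ^ K * 4 ^ (H ^ 2) := by
  have hN1 : (1 : ℝ) ≤ N := by exact_mod_cast hN
  have hD0 : (0 : ℝ) ≤ D := Nat.cast_nonneg D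
  have h2b : (1 : ℝ) ≤ 2 ^ b := one_le_pow₀ (by norm_num)
  have hB : (B₂ : ℝ) ≤ 2 ^ b := by exact_mod_cast hB₂b
  rw [abs_of_nonneg (by positivity)]
  have h1 : (B₂ : ℝ) ^ k * ζ ^ k ≤ (2 ^ b * ((D : ℝ) + N)) ^ K := by
    rw [← mul_pow]
    have h3 : (B₂ : ℝ) * ζ ≤ 2 ^ b * ((D : ℝ) + N) :=
      mul_le_mul hB (by linarith) hζ0 (by positivity)
    have h4 : (1 : ℝ) ≤ 2 ^ b * ((D : ℝ) + N) := by nlinarith
    exact (pow_le_pow_left₀ (by positivity) h3 k).trans (pow_le_pow_right₀ h4 hk)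
  have h2 : Real.exp (l * a * ζ) ≤ 4 ^ (H ^ 2) := by
    apply q5_exp
    rw [← hDW]
    have hl' : (l : ℝ) ≤ L := by exact_mod_cast hl
    have h5 : (l : ℝ) * a ≤ L * lam := mul_le_mul hl' ha ha0 (Nat.cast_nonneg _)
    have h6 : (l : ℝ) * a * ζ ≤ L * lam * D :=
      mul_le_mul h5 hζ hζ0 (by positivity)
    push_cast
    linarith
  calc (B₂ : ℝ) ^ k * (ζ ^ k * Real.exp (l * a * ζ))
      = ((B₂ : ℝ) ^ k * ζ ^ k) * Real.exp (l * a * ζ) := by ring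
    _ ≤ (2 ^ b * ((D : ℝ) + N)) ^ K * 4 ^ (H ^ 2) :=
        mul_le_mul h1 h2 (Real.exp_pos _).le (by positivity)

/-- the determinant of the unperturbed matrix -/
private theorem q5_main {B₂ b K L H D N lam : ℕ} {a : ℝ} (ζ : Fin K × Fin L → ℝ)
    (hB₂b : B₂ ≤ 2 ^ b) (ha0 : 0 ≤ a) (ha : a ≤ lam) (hζ0 : ∀ i, 0 ≤ ζ i) (hζ : ∀ i, ζ i ≤ D)
    (hN : Even N) (hNK : N = K * L) (hH : 1 ≤ H) (h : 1536 * H ^ 3 ≤ N) (hK : 1 ≤ K)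
    (hL : 2 ^ b * (D + N) ≤ 2 ^ L) (hN1 : 1 ≤ N) (hDW : D * (L * lam) = H ^ 2)
    (hW : 1 ≤ L * lam) :
    |(Matrix.of fun i j : Fin K × Fin L => (B₂ : ℝ) ^ (j.1 : ℕ) *
      (ζ i ^ (j.1 : ℕ) * Real.exp ((j.2 : ℕ) * a * ζ i))).det| ≤ 1 / 4 := by
  have hcard : Fintype.card (Fin K × Fin L) = N := by
    rw [hNK, Fintype.card_prod, Fintype.card_fin, Fintype.card_fin]
  have h1 := Matrix.det_mul_row (fun j : Fin K × Fin L => (B₂ : ℝ) ^ (j.1 : ℕ))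
    (Matrix.of fun i j : Fin K × Fin L =>
      (ζ i ^ (j.1 : ℕ) * Real.exp ((j.2 : ℕ) * a * ζ i)))
  simp only [Matrix.of_apply] at h1
  rw [h1, abs_mul]
  have h2 := abs_det_exp_le (n := Fin K × Fin L) (by rw [hcard]; exact hN1)
    (fun j => (j.1 : ℕ)) (fun j => (j.2 : ℕ) * a) ζ (K := K) (W := (L : ℝ) * lam) (D := (D : ℝ))
    (fun j => j.1.2.le) (fun j => by positivity)
    (fun j => mul_le_mul (by exact_mod_cast j.2.2.le) ha ha0 (Nat.cast_nonneg _))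
    (by exact_mod_cast hW) hζ0 hζ (Nat.cast_nonneg _)
  rw [hcard] at h2
  have h3 : |∏ j : Fin K × Fin L, (B₂ : ℝ) ^ (j.1 : ℕ)| ≤ ((2 : ℝ) ^ b) ^ (N * K) := by
    rw [abs_of_nonneg (Finset.prod_nonneg fun j _ => by positivity)]
    calc ∏ j : Fin K × Fin L, (B₂ : ℝ) ^ (j.1 : ℕ)
        ≤ ∏ j : Fin K × Fin L, ((2 : ℝ) ^ b) ^ K := by
          apply Finset.prod_le_prod
          · intro j _
            positivity
          · intro j _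
            have hB : (B₂ : ℝ) ≤ 2 ^ b := by exact_mod_cast hB₂b
            exact (pow_le_pow_left₀ (Nat.cast_nonneg _) hB _).trans
              (pow_le_pow_right₀ (one_le_pow₀ (by norm_num)) j.1.2.le)
      _ = ((2 : ℝ) ^ b) ^ (N * K) := by
          rw [Finset.prod_const, Finset.card_univ, hcard, ← pow_mul, mul_comm K N]
  have h4 : ((D : ℝ) * (L * lam)) ^ (N * (N - 1) / 2) = (H : ℝ) ^ (N * (N - 1)) := by
    have h5 : ((D : ℝ) * (L * lam)) = (H : ℝ) ^ 2 := by exact_mod_cast hDW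
    rw [h5, ← pow_mul]
    congr 1
    exact Nat.mul_div_cancel' (Nat.even_mul_pred_self N).two_dvd
  have h6 : (Real.exp ((L : ℝ) * lam * D) * ((D : ℝ) + N) ^ K) ^ N ≤
      4 ^ (N * H ^ 2) * ((D : ℝ) + N) ^ (N * K) := by
    rw [mul_pow, ← pow_mul ((D : ℝ) + N), mul_comm K N]
    apply mul_le_mul_of_nonneg_right _ (by positivity)
    rw [mul_comm N (H ^ 2), pow_mul (4 : ℝ)]
    apply pow_le_pow_left₀ (Real.exp_pos _).le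
    apply q5_exp
    rw [← hDW]
    push_cast
    linarith
  have h7 : (N.factorial : ℝ) ≤ (N : ℝ) ^ N := by exact_mod_cast Nat.factorial_le_pow N
  rw [h4] at h2
  have hP : (0 : ℝ) < ∏ q ∈ Finset.range N, (q.factorial : ℝ) :=
    Finset.prod_pos fun q _ => by positivity
  have h8 := numeric_main hN hNK hH h hK hL
  have h8' : (4 : ℝ) * (2 ^ b) ^ (N * K) * N ^ N * H ^ (N * (N - 1)) * 4 ^ (N * H ^ 2) *
      ((D : ℝ) + N) ^ (N * K) ≤ ∏ q ∈ Finset.range N, (q.factorial : ℝ) := by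
    exact_mod_cast h8
  have h9 : (N.factorial : ℝ) * (H : ℝ) ^ (N * (N - 1)) *
      (Real.exp ((L : ℝ) * lam * D) * ((D : ℝ) + N) ^ K) ^ N ≤
      (N : ℝ) ^ N * (H : ℝ) ^ (N * (N - 1)) *
      (4 ^ (N * H ^ 2) * ((D : ℝ) + N) ^ (N * K)) := by
    apply mul_le_mul _ h6 (by positivity) (by positivity)
    exact mul_le_mul_of_nonneg_right h7 (by positivity)
  calc |∏ j : Fin K × Fin L, (B₂ : ℝ) ^ (j.1 : ℕ)| *
        |(Matrix.of fun i j : Fin K × Fin L =>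
          (ζ i ^ (j.1 : ℕ) * Real.exp ((j.2 : ℕ) * a * ζ i))).det|
      ≤ ((2 : ℝ) ^ b) ^ (N * K) * ((N.factorial : ℝ) * (H : ℝ) ^ (N * (N - 1)) *
      (Real.exp ((L : ℝ) * lam * D) * ((D : ℝ) + N) ^ K) ^ N /
        ∏ q ∈ Finset.range N, (q.factorial : ℝ)) :=
        mul_le_mul h3 h2 (abs_nonneg _) (by positivity)
    _ ≤ ((2 : ℝ) ^ b) ^ (N * K) * ((N : ℝ) ^ N * (H : ℝ) ^ (N * (N - 1)) *
      (4 ^ (N * H ^ 2) * ((D : ℝ) + N) ^ (N * K)) /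
        ∏ q ∈ Finset.range N, (q.factorial : ℝ)) :=
        mul_le_mul_of_nonneg_left (div_le_div_of_nonneg_right h9 hP.le) (by positivity)
    _ ≤ 1 / 4 := by
        rw [← mul_div_assoc, div_le_div_iff₀ hP (by norm_num)]
        calc ((2 : ℝ) ^ b) ^ (N * K) * ((N : ℝ) ^ N * (H : ℝ) ^ (N * (N - 1)) *
              (4 ^ (N * H ^ 2) * ((D : ℝ) + N) ^ (N * K))) * 4
            = (4 : ℝ) * (2 ^ b) ^ (N * K) * N ^ N * H ^ (N * (N - 1)) * 4 ^ (N * H ^ 2) *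
      ((D : ℝ) + N) ^ (N * K) := by ring
          _ ≤ _ := h8'
          _ = 1 * ∏ q ∈ Finset.range N, (q.factorial : ℝ) := (one_mul _).symm

/-- the perturbation -/
private theorem q5_pert {α β B₁ B₂ b K L H D N S lam : ℕ} (ρ : Fin K × Fin L → ℕ × ℕ)
    (hα : 2 ≤ α) (hβ : 2 ≤ β) (hB₂ : 0 < B₂)
    (hB₂b : B₂ ≤ 2 ^ b) (ha : Real.log α ≤ lam)
    (hs : ∀ i, (ρ i).2 < 2 * S)
    (hζ : ∀ i, ((ρ i).1 : ℝ) + (ρ i).2 * (B₁ / B₂ : ℝ) ≤ D)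
    (hNK : N = K * L) (hH : 1 ≤ H) (h : 1536 * H ^ 3 ≤ N) (hK : 1 ≤ K)
    (hL : 2 ^ b * (D + N) ≤ 2 ^ L) (hS : S ≤ N) (hN1 : 1 ≤ N) (hDW : D * (L * lam) = H ^ 2)
    (hΛ : |(B₁ : ℝ) * Real.log α - B₂ * Real.log β| * 2 ^ (4 * N ^ 2) ≤ 1) :
    |(Matrix.of fun i j : Fin K × Fin L => (((ρ i).1 : ℝ) * B₂ + (ρ i).2 * B₁) ^ (j.1 : ℕ) *
        ((α : ℝ) ^ (ρ i).1 * (β : ℝ) ^ (ρ i).2) ^ (j.2 : ℕ)).det -
      (Matrix.of fun i j : Fin K × Fin L => (B₂ : ℝ) ^ (j.1 : ℕ) *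
      ((((ρ i).1 : ℝ) + (ρ i).2 * (B₁ / B₂ : ℝ)) ^ (j.1 : ℕ) *
        Real.exp ((j.2 : ℕ) * Real.log α * (((ρ i).1 : ℝ) + (ρ i).2 * (B₁ / B₂ : ℝ))))).det| ≤
      1 / 4 := by
  have hcard : Fintype.card (Fin K × Fin L) = N := by
    rw [hNK, Fintype.card_prod, Fintype.card_fin, Fintype.card_fin]
  obtain ⟨Λ, hΛd⟩ : ∃ Λ, Λ = (B₁ : ℝ) * Real.log α - B₂ * Real.log β := ⟨_, rfl⟩
  rw [← hΛd] at hΛ
  obtain ⟨F, hF⟩ : ∃ F, F = (2 ^ b * ((D : ℝ) + N)) ^ K * 4 ^ (H ^ 2) := ⟨_, rfl⟩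
  have hN1' : (1 : ℝ) ≤ N := by exact_mod_cast hN1
  have hF1 : 1 ≤ F := by
    rw [hF]
    have h2b : (1 : ℝ) ≤ 2 ^ b := one_le_pow₀ (by norm_num)
    have hD0 : (0 : ℝ) ≤ D := Nat.cast_nonneg D
    have h1 : (1 : ℝ) ≤ 2 ^ b * ((D : ℝ) + N) := by nlinarith
    have h2 : (1 : ℝ) ≤ 4 ^ (H ^ 2) := one_le_pow₀ (by norm_num)
    have h3 := one_le_pow₀ h1 (n := K)
    nlinarith
  have hnum := numeric_pert (S := S) hNK hH h hK hL hS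
  have hnum' : (4 : ℝ) * ((N : ℝ) ^ N * F ^ N * (8 * N * S * L)) ≤ 2 ^ (4 * N ^ 2) := by
    rw [hF]
    exact_mod_cast hnum
  have hNN : (1 : ℝ) ≤ (N : ℝ) ^ N := one_le_pow₀ hN1'
  have hFN : (1 : ℝ) ≤ F ^ N := one_le_pow₀ hF1
  have hNF : (1 : ℝ) ≤ (N : ℝ) ^ N * F ^ N := by nlinarith
  have hSL0 : (0 : ℝ) ≤ 8 * N * S * L := by positivity
  have h32 : (4 : ℝ) * (8 * N * S * L) ≤ 2 ^ (4 * N ^ 2) := by
    refine le_trans ?_ hnum'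
    have h1 : (8 * N * S * L : ℝ) ≤ (N : ℝ) ^ N * F ^ N * (8 * N * S * L) := by
      have h2 := mul_le_mul_of_nonneg_right hNF hSL0
      rw [one_mul] at h2
      exact h2
    linarith
  have hΛ0 : 0 ≤ |Λ| := abs_nonneg _
  have hNSL : (4 : ℝ) * (8 * N * S * L) * |Λ| ≤ 1 := by
    calc (4 : ℝ) * (8 * N * S * L) * |Λ| ≤ 2 ^ (4 * N ^ 2) * |Λ| :=
          mul_le_mul_of_nonneg_right h32 hΛ0
      _ = |Λ| * 2 ^ (4 * N ^ 2) := mul_comm _ _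
      _ ≤ 1 := hΛ
  have hSL1 : (S : ℝ) * L * |Λ| ≤ N * S * L * |Λ| := by
    have h1 : (0 : ℝ) ≤ (S : ℝ) * L * |Λ| := by positivity
    nlinarith
  obtain ⟨δ, hδ⟩ : ∃ δ, δ = 4 * S * L * |Λ| := ⟨_, rfl⟩
  have hδ0 : 0 ≤ δ := by
    rw [hδ]
    positivity
  have hδ1 : N * δ ≤ 1 := by
    rw [hδ]
    nlinarith
  have hB₂' : (1 : ℝ) ≤ B₂ := by exact_mod_cast hB₂
  have hlog0 : 0 ≤ Real.log α := Real.log_nonneg (by exact_mod_cast (by omega : 1 ≤ α))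
  have hA : ∀ i j : Fin K × Fin L, |(Matrix.of fun i j : Fin K × Fin L =>
      (B₂ : ℝ) ^ (j.1 : ℕ) *
      ((((ρ i).1 : ℝ) + (ρ i).2 * (B₁ / B₂ : ℝ)) ^ (j.1 : ℕ) *
        Real.exp ((j.2 : ℕ) * Real.log α * (((ρ i).1 : ℝ) + (ρ i).2 * (B₁ / B₂ : ℝ))))) i j| ≤
      F := by
    intro i j
    rw [hF]
    simp only [Matrix.of_apply]
    exact q5_entry hB₂b j.1.2.le j.2.2.le hlog0 ha (by positivity) (hζ i) hN1 hDW
  have hA' : ∀ i j : Fin K × Fin L, |(Matrix.of fun i j : Fin K × Fin L =>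
      (((ρ i).1 : ℝ) * B₂ + (ρ i).2 * B₁) ^ (j.1 : ℕ) *
        ((α : ℝ) ^ (ρ i).1 * (β : ℝ) ^ (ρ i).2) ^ (j.2 : ℕ)) i j -
      (Matrix.of fun i j : Fin K × Fin L =>
      (B₂ : ℝ) ^ (j.1 : ℕ) *
      ((((ρ i).1 : ℝ) + (ρ i).2 * (B₁ / B₂ : ℝ)) ^ (j.1 : ℕ) *
        Real.exp ((j.2 : ℕ) * Real.log α * (((ρ i).1 : ℝ) + (ρ i).2 * (B₁ / B₂ : ℝ))))) i j| ≤
      δ * F := by
    intro i j
    have h1 := hA i j
    simp only [Matrix.of_apply] at h1 ⊢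
    rw [entry_eq (by omega) (by omega) hB₂, ← mul_sub_one, abs_mul, ← hΛd, mul_comm δ F]
    apply mul_le_mul h1 _ (abs_nonneg _) (by linarith)
    have hj : (((j.2 : ℕ)) : ℝ) ≤ L := by exact_mod_cast j.2.2.le
    have hsi : (((ρ i).2 : ℕ) : ℝ) ≤ 2 * S := by exact_mod_cast (hs i).le
    have h2 : |((j.2 : ℕ) : ℝ) * ((ρ i).2 : ℝ) * Λ / B₂| ≤ 2 * S * L * |Λ| := by
      rw [abs_div, abs_mul, abs_of_nonneg (by positivity : (0 : ℝ) ≤ ((j.2 : ℕ) : ℝ) *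
        ((ρ i).2 : ℝ)), abs_of_nonneg (by linarith : (0 : ℝ) ≤ (B₂ : ℝ))]
      rw [div_le_iff₀ (by linarith)]
      have h3 : ((j.2 : ℕ) : ℝ) * ((ρ i).2 : ℝ) ≤ L * (2 * S) :=
        mul_le_mul hj hsi (Nat.cast_nonneg _) (Nat.cast_nonneg _)
      have h4 : ((j.2 : ℕ) : ℝ) * ((ρ i).2 : ℝ) * |Λ| ≤ L * (2 * S) * |Λ| :=
        mul_le_mul_of_nonneg_right h3 hΛ0
      have h5 : (0 : ℝ) ≤ 2 * S * L * |Λ| := by positivity
      nlinarith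
    have h3 : |((j.2 : ℕ) : ℝ) * ((ρ i).2 : ℝ) * Λ / B₂| ≤ 1 := by
      refine h2.trans ?_
      nlinarith
    refine (abs_exp_neg_sub_one_le h3).trans ?_
    rw [hδ]
    linarith
  have h1 := det_perturb _ _ (by linarith : 0 ≤ F) hδ0 hA hA'
  rw [hcard] at h1
  refine h1.trans ?_
  have h2 := pow_one_add_sub_one_le (n := N) hδ0 hδ1
  have h3 : (N.factorial : ℝ) ≤ (N : ℝ) ^ N := by exact_mod_cast Nat.factorial_le_pow N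
  calc (N.factorial : ℝ) * F ^ N * ((1 + δ) ^ N - 1)
      ≤ (N : ℝ) ^ N * F ^ N * (2 * N * δ) := by
        apply mul_le_mul _ h2 _ (by positivity)
        · exact mul_le_mul_of_nonneg_right h3 (by positivity)
        · rw [sub_nonneg]
          exact one_le_pow₀ (by linarith)
    _ = (1 / 4) * ((4 : ℝ) * ((N : ℝ) ^ N * F ^ N * (8 * N * S * L)) * |Λ|) := by
        rw [hδ]
        ring
    _ ≤ (1 / 4) * (2 ^ (4 * N ^ 2) * |Λ|) := by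
        apply mul_le_mul_of_nonneg_left _ (by norm_num)
        exact mul_le_mul_of_nonneg_right hnum' hΛ0
    _ ≤ 1 / 4 := by
        rw [mul_comm ((2 : ℝ) ^ (4 * N ^ 2))]
        linarith

theorem arch_large {α β B₁ B₂ lam b : ℕ} (hα : 2 ≤ α) (hβ : 2 ≤ β) (hI : Indep α β)
    (hαl : α ≤ 2 ^ lam) (hβl : β ≤ 2 ^ lam) (hc : B₁.Coprime B₂) (hB₁ : 0 < B₁) (hB₂ : 0 < B₂)
    (hB₂b : B₂ ≤ 2 ^ b) (hbig : 2 ^ 58 * (b + lam) ^ 3 * lam ^ 6 ≤ max B₁ B₂) :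
    (1 / 2 : ℝ) ^ (2 ^ 240 * (b + lam) ^ 36) ≤
      |(B₁ : ℝ) * Real.log α - B₂ * Real.log β| := by
  by_contra hcon
  push Not at hcon
  have hlam : 1 ≤ lam := q5_lam hα hαl
  obtain ⟨hlog0, hlog⟩ := q5_log hα hαl
  obtain ⟨L, hL⟩ : ∃ L, L = 256 * (b + lam) := ⟨_, rfl⟩
  obtain ⟨σ, hσ⟩ : ∃ σ, σ = 2 ^ 17 * L * lam ^ 3 := ⟨_, rfl⟩
  obtain ⟨S, hS⟩ : ∃ S, S = L * σ ^ 2 := ⟨_, rfl⟩
  obtain ⟨K, hK⟩ : ∃ K, K = L * σ ^ 4 := ⟨_, rfl⟩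
  obtain ⟨N, hN⟩ : ∃ N, N = K * L := ⟨_, rfl⟩
  obtain ⟨H, hH⟩ : ∃ H, H = 4 * L * lam * σ := ⟨_, rfl⟩
  obtain ⟨D, hD⟩ : ∃ D, D = 16 * S * lam := ⟨_, rfl⟩
  obtain ⟨hev, hHN, hbL, hDW, hKS, hNb⟩ := numeric_param hlam hL hσ hS hK hN hH hD
  have hL0 : 0 < L := by omega
  have hσ0 : 0 < σ := by
    rw [hσ]
    positivity
  have hK0 : 0 < K := by
    rw [hK]
    positivity
  have hN0 : 0 < N := by
    rw [hN]
    positivity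
  have hH0 : 0 < H := by
    rw [hH]
    positivity
  have hSN : S ≤ N := by
    rw [hN, hK, hS]
    calc L * σ ^ 2 = L * σ ^ 2 * 1 := (mul_one _).symm
      _ ≤ L * σ ^ 2 * (σ ^ 2 * L) := Nat.mul_le_mul_left _ (Nat.mul_pos (by positivity) hL0)
      _ = L * σ ^ 4 * L := by ring
  have hSm : S ≤ max B₁ B₂ := by
    have h1 : S = 2 ^ 58 * (b + lam) ^ 3 * lam ^ 6 := by
      rw [hS, hσ, hL]
      ring
    rw [h1]
    exact hbig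
  obtain ⟨ρ, hρ, hdet⟩ := exists_minor hα hβ hI hc hB₁ hB₂ hSm hK0 hL0 hKS
  -- the linear form is small
  have hΛ : |(B₁ : ℝ) * Real.log α - B₂ * Real.log β| * 2 ^ (4 * N ^ 2) ≤ 1 := by
    have h1 : 4 * N ^ 2 ≤ 2 ^ 240 * (b + lam) ^ 36 := by
      calc 4 * N ^ 2 ≤ 4 * (2 ^ 116 * (b + lam) ^ 18) ^ 2 :=
            Nat.mul_le_mul_left _ (Nat.pow_le_pow_left hNb 2)
        _ = 2 ^ 234 * (b + lam) ^ 36 := by ring
        _ ≤ 2 ^ 240 * (b + lam) ^ 36 := Nat.mul_le_mul_right _ (by norm_num)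
    have h2 : (1 / 2 : ℝ) ^ (2 ^ 240 * (b + lam) ^ 36) ≤ (1 / 2) ^ (4 * N ^ 2) :=
      pow_le_pow_of_le_one (by norm_num) (by norm_num) h1
    have h3 : |(B₁ : ℝ) * Real.log α - B₂ * Real.log β| ≤ (1 / 2) ^ (4 * N ^ 2) :=
      hcon.le.trans h2
    calc |(B₁ : ℝ) * Real.log α - B₂ * Real.log β| * 2 ^ (4 * N ^ 2)
        ≤ (1 / 2) ^ (4 * N ^ 2) * 2 ^ (4 * N ^ 2) :=
          mul_le_mul_of_nonneg_right h3 (by positivity)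
      _ = 1 := by
          rw [← mul_pow]
          norm_num
  have hΛ1 : |(B₁ : ℝ) * Real.log α - B₂ * Real.log β| ≤ 1 := by
    have h1 : (1 : ℝ) ≤ 2 ^ (4 * N ^ 2) := one_le_pow₀ (by norm_num)
    have h2 : |(B₁ : ℝ) * Real.log α - B₂ * Real.log β| * 1 ≤
        |(B₁ : ℝ) * Real.log α - B₂ * Real.log β| * 2 ^ (4 * N ^ 2) :=
      mul_le_mul_of_nonneg_left h1 (abs_nonneg _)
    linarith
  have hratio := ratio_le hα hβ hβl hB₁ hB₂ hΛ1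
  have hlam' : (1 : ℝ) ≤ lam := by exact_mod_cast hlam
  have hB₂' : (0 : ℝ) < B₂ := by exact_mod_cast hB₂
  have hq0 : (0 : ℝ) ≤ (B₁ / B₂ : ℝ) := by positivity
  have hζ0 : ∀ i, 0 ≤ ((ρ i).1 : ℝ) + (ρ i).2 * (B₁ / B₂ : ℝ) := by
    intro i
    positivity
  have hζ : ∀ i, ((ρ i).1 : ℝ) + (ρ i).2 * (B₁ / B₂ : ℝ) ≤ D := by
    intro i
    have h1 : ((ρ i).1 : ℝ) ≤ 2 * S := by exact_mod_cast (hρ i).1.le
    have h2 : ((ρ i).2 : ℝ) ≤ 2 * S := by exact_mod_cast (hρ i).2.le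
    have h3 : ((ρ i).2 : ℝ) * (B₁ / B₂ : ℝ) ≤ 2 * S * (lam + 2) :=
      mul_le_mul h2 hratio hq0 (by positivity)
    rw [hD]
    push_cast
    have hS0 : (0 : ℝ) ≤ S := Nat.cast_nonneg S
    nlinarith
  have hWL : 1 ≤ L * lam := Nat.mul_pos hL0 hlam
  have e1 := q5_pert ρ hα hβ hB₂ hB₂b hlog (fun i => (hρ i).2) hζ hN hH0 hHN hK0 hbL hSN hN0
    hDW hΛ
  have e2 := q5_main (fun i => ((ρ i).1 : ℝ) + (ρ i).2 * (B₁ / B₂ : ℝ)) hB₂b hlog0 hlog hζ0 hζ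
    hev hN hH0 hHN hK0 hbL hN0 hDW hWL
  have e3 : (Matrix.of fun i j : Fin K × Fin L => (((ρ i).1 : ℝ) * B₂ + (ρ i).2 * B₁) ^
      (j.1 : ℕ) * ((α : ℝ) ^ (ρ i).1 * (β : ℝ) ^ (ρ i).2) ^ (j.2 : ℕ)).det =
      (((mat α β B₁ B₂ K L ρ).det : ℤ) : ℝ) := by
    have e0 := RingHom.map_det (Int.castRingHom ℝ) (mat α β B₁ B₂ K L ρ)
    rw [eq_intCast] at e0
    rw [e0]
    congr 1
    ext i j
    simp [mat]
  have e4 : (1 : ℝ) ≤ |(((mat α β B₁ B₂ K L ρ).det : ℤ) : ℝ)| := by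
    rw [← Int.cast_abs]
    exact_mod_cast Int.one_le_abs hdet
  rw [e3] at e1
  obtain ⟨x, hx⟩ : ∃ x, x = (Matrix.of fun i j : Fin K × Fin L => (B₂ : ℝ) ^ (j.1 : ℕ) *
      ((((ρ i).1 : ℝ) + (ρ i).2 * (B₁ / B₂ : ℝ)) ^ (j.1 : ℕ) *
        Real.exp ((j.2 : ℕ) * Real.log α * (((ρ i).1 : ℝ) + (ρ i).2 * (B₁ / B₂ : ℝ))))).det :=
    ⟨_, rfl⟩
  rw [← hx] at e1 e2
  have e5 := abs_add_le ((((mat α β B₁ B₂ K L ρ).det : ℤ) : ℝ) - x) x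
  rw [sub_add_cancel] at e5
  linarith

end Pool.Agent.LibTL52
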