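import Pool.Agent.LibTL52.Defs

/-!
The determinant of a matrix of values of polynomials is a multiple of the Vandermonde
determinant.
-/

set_option autoImplicit false
open Polynomial

namespace Pool.Agent.LibTL52

/-- one step of the induction: subtract the first row and expand -/
theorem v1_step {R : Type} [CommRing R] {n : ℕ} (a : Fin (n + 1) → Fin (n + 1) → R)
    (g : Fin (n + 1) → Fin (n + 1) → R) (y : Fin (n + 1) → R)
    (hg : ∀ (i : Fin n) (j : Fin (n + 1)), a i.succ j - a 0 j = (y i.succ - y 0) * g i.succ j) :
    (Matrix.of a).det = (∏ i : Fin n, (y i.succ - y 0)) *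
      ∑ j : Fin (n + 1), (-1) ^ (j : ℕ) * a 0 j *
        (Matrix.of fun i j' : Fin n => g i.succ (j.succAbove j')).det := by
  set B : Matrix (Fin (n + 1)) (Fin (n + 1)) R := Matrix.of fun i j =>
    if i = 0 then a 0 j else a i j - a 0 j with hB
  have h1 : (Matrix.of a).det = B.det := by
    refine Matrix.det_eq_of_forall_row_eq_smul_add_const (fun i => if i = 0 then 0 else 1) 0
      (by simp) fun i j => ?_
    by_cases hi : i = 0
    · subst hi; simp [hB]
    · simp [hB, hi]
  rw [h1, Matrix.det_succ_row_zero, Finset.mul_sum]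
  refine Finset.sum_congr rfl fun j _ => ?_
  have h2 : B.submatrix Fin.succ j.succAbove = Matrix.of fun i j' : Fin n =>
      (y i.succ - y 0) * (Matrix.of fun i j' : Fin n => g i.succ (j.succAbove j')) i j' := by
    ext i j'
    simp only [Matrix.submatrix_apply, hB, Matrix.of_apply, Fin.succ_ne_zero, if_false]
    exact hg i _
  rw [h2, Matrix.det_mul_column]
  simp only [hB, Matrix.of_apply, if_true]
  ring

theorem vandermonde_dvd {R : Type} [CommRing R] (n : ℕ) (H : Fin n → R[X]) (y : Fin n → R) :
    (Matrix.vandermonde y).det ∣ (Matrix.of fun i j : Fin n => (H j).eval (y i)).det := by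
  induction n with
  | zero => simp
  | succ n ih =>
    have hex : ∀ j, ∃ g : R[X], H j - C ((H j).eval (y 0)) = (X - C (y 0)) * g := fun j =>
      X_sub_C_dvd_sub_C_eval
    choose g hg using hex
    have hg' : ∀ j z, (H j).eval z - (H j).eval (y 0) = (z - y 0) * (g j).eval z := by
      intro j z
      have := congrArg (fun p => p.eval z) (hg j)
      simpa using this
    have h1 := v1_step (fun i j => (H j).eval (y i)) (fun i j => (g j).eval (y i)) y
      (fun i j => hg' j _)
    have h2 : (Matrix.vandermonde y).det =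
        (∏ i : Fin n, (y i.succ - y 0)) * (Matrix.vandermonde fun i : Fin n => y i.succ).det := by
      rw [Matrix.det_vandermonde, Matrix.det_vandermonde, Fin.prod_univ_succ]
      congr 1
      · rw [Fin.prod_Ioi_zero]
      · refine Finset.prod_congr rfl fun i _ => ?_
        rw [Fin.prod_Ioi_succ]
    rw [h1, h2]
    refine mul_dvd_mul_left _ (Finset.dvd_sum fun j _ => Dvd.dvd.mul_left ?_ _)
    exact ih (fun j' => g (j.succAbove j')) (fun i => y i.succ)

/-- at the multiples `t * ζ i` of `t` the determinant is divisible by `t ^ (n (n - 1) / 2)` -/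
theorem pow_dvd_det {n : Type} [Fintype n] [DecidableEq n] (H : n → ℤ[X]) (t : ℤ) (ζ : n → ℤ) :
    t ^ (Fintype.card n * (Fintype.card n - 1) / 2) ∣
      (Matrix.of fun i j : n => (H j).eval (t * ζ i)).det := by
  set e := (Fintype.equivFin n).symm with he
  have h1 : (Matrix.of fun i j : n => (H j).eval (t * ζ i)).det =
      (Matrix.of fun i j : Fin (Fintype.card n) => (H (e j)).eval (t * ζ (e i))).det := by
    rw [← Matrix.det_submatrix_equiv_self e]
    rfl
  rw [h1]
  refine dvd_trans ?_ (vandermonde_dvd _ (fun j => H (e j)) (fun i => t * ζ (e i)))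
  have h2 : Matrix.vandermonde (fun i : Fin (Fintype.card n) => t * ζ (e i)) =
      Matrix.of fun i j : Fin (Fintype.card n) =>
        t ^ (j : ℕ) * (Matrix.vandermonde fun i => ζ (e i)) i j := by
    ext i j
    simp only [Matrix.vandermonde_apply, Matrix.of_apply, mul_pow]
  rw [h2, Matrix.det_mul_row (fun j : Fin (Fintype.card n) => t ^ (j : ℕ)),
    Finset.prod_pow_eq_pow_sum, Fin.sum_univ_eq_sum_range (fun i => i), Finset.sum_range_id]
  exact dvd_mul_right _ _

end Pool.Agent.LibTL52
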