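import Pool.Agent.LibTL52.Defs

/-!
Divided differences of polynomials with nonnegative coefficients.
-/

set_option autoImplicit false
open Polynomial

namespace Pool.Agent.LibTL52

private theorem w1_choose (n q : ℕ) : ∑ a ∈ Finset.range n, a.choose q = n.choose (q + 1) := by
  induction n with
  | zero => simp
  | succ n ih =>
    rw [Finset.sum_range_succ, ih, Nat.choose_succ_succ, Nat.add_comm]

/-- `(p ζ - p η) / (ζ - η)` is a polynomial `g` in `ζ` with nonnegative coefficients whose `q`-th
Taylor coefficient at `D ≥ η` is at most the `(q + 1)`-st Taylor coefficient of `p` -/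
theorem exists_dd {p : ℝ[X]} (hp : ∀ n, 0 ≤ p.coeff n) {η D : ℝ} (hη : 0 ≤ η) (hD : η ≤ D) :
    ∃ g : ℝ[X], (∀ n, 0 ≤ g.coeff n) ∧
      (∀ ζ : ℝ, p.eval ζ - p.eval η = (ζ - η) * g.eval ζ) ∧
      ∀ q : ℕ, (hasseDeriv q g).eval D ≤ (hasseDeriv (q + 1) p).eval D := by
  have hD0 : 0 ≤ D := hη.trans hD
  refine ⟨∑ n ∈ Finset.range (p.natDegree + 1), ∑ a ∈ Finset.range n,
    monomial a (p.coeff n * η ^ (n - 1 - a)), ?_, ?_, ?_⟩
  · intro m
    rw [finsetSum_coeff]
    apply Finset.sum_nonneg
    intro n _
    rw [finsetSum_coeff]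
    apply Finset.sum_nonneg
    intro a _
    rw [coeff_monomial]
    split_ifs
    · exact mul_nonneg (hp n) (pow_nonneg hη _)
    · exact le_rfl
  · intro ζ
    rw [eval_eq_sum_range, eval_eq_sum_range, ← Finset.sum_sub_distrib, eval_finsetSum,
      Finset.mul_sum]
    refine Finset.sum_congr rfl fun n _ => ?_
    rw [eval_finsetSum, ← mul_sub, ← geom_sum₂_mul, Finset.sum_mul, Finset.mul_sum, Finset.mul_sum]
    refine Finset.sum_congr rfl fun a _ => ?_
    rw [eval_monomial]
    ring
  · intro q
    have e1 : hasseDeriv (q + 1) p = ∑ n ∈ Finset.range (p.natDegree + 1),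
        monomial (n - (q + 1)) ((n.choose (q + 1) : ℝ) * p.coeff n) := by
      conv_lhs => rw [p.as_sum_range]
      rw [map_sum]
      exact Finset.sum_congr rfl fun n _ => hasseDeriv_monomial _ _ _
    rw [e1, map_sum, eval_finsetSum, eval_finsetSum]
    apply Finset.sum_le_sum
    intro n _
    rw [map_sum, eval_finsetSum, eval_monomial]
    have e2 : ∀ a ∈ Finset.range n, eval D (hasseDeriv q (monomial a (p.coeff n * η ^ (n - 1 - a)))) ≤
        (a.choose q : ℝ) * (p.coeff n * D ^ (n - (q + 1))) := by
      intro a ha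
      rw [Finset.mem_range] at ha
      rw [hasseDeriv_monomial, eval_monomial]
      by_cases haq : a < q
      · rw [Nat.choose_eq_zero_of_lt haq]
        simp
      · push Not at haq
        have h1 : η ^ (n - 1 - a) * D ^ (a - q) ≤ D ^ (n - (q + 1)) := by
          calc η ^ (n - 1 - a) * D ^ (a - q) ≤ D ^ (n - 1 - a) * D ^ (a - q) :=
                mul_le_mul_of_nonneg_right (pow_le_pow_left₀ hη hD _) (pow_nonneg hD0 _)
            _ = D ^ (n - (q + 1)) := by
                rw [← pow_add]
                congr 1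
                omega
        calc (a.choose q : ℝ) * (p.coeff n * η ^ (n - 1 - a)) * D ^ (a - q) =
            (a.choose q : ℝ) * (p.coeff n * (η ^ (n - 1 - a) * D ^ (a - q))) := by ring
          _ ≤ _ := by
            apply mul_le_mul_of_nonneg_left _ (Nat.cast_nonneg _)
            exact mul_le_mul_of_nonneg_left h1 (hp n)
    refine (Finset.sum_le_sum e2).trans (le_of_eq ?_)
    rw [← Finset.sum_mul]
    have e3 : ∑ a ∈ Finset.range n, (a.choose q : ℝ) = (n.choose (q + 1) : ℝ) := by
      exact_mod_cast w1_choose n q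
    rw [e3]
    ring

end Pool.Agent.LibTL52
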