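import Pool.Agent.LibTL52.W1
import Pool.Agent.LibTL52.V1

/-!
The determinant of the values of polynomials with nonnegative coefficients.
-/

set_option autoImplicit false
open Polynomial

namespace Pool.Agent.LibTL52

private theorem w2_mono {p : ℝ[X]} (hp : ∀ n, 0 ≤ p.coeff n) {x y : ℝ} (hx : 0 ≤ x)
    (hxy : x ≤ y) : 0 ≤ p.eval x ∧ p.eval x ≤ p.eval y := by
  rw [Polynomial.eval_eq_sum_range, Polynomial.eval_eq_sum_range]
  refine ⟨Finset.sum_nonneg fun i _ => mul_nonneg (hp i) (by positivity),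
    Finset.sum_le_sum fun i _ => mul_le_mul_of_nonneg_left (pow_le_pow_left₀ hx hxy i) (hp i)⟩

theorem abs_det_le (n : ℕ) (f : Fin n → ℝ[X]) (hf : ∀ j m, 0 ≤ (f j).coeff m) {D : ℝ}
    (ζ : Fin n → ℝ) (h0 : ∀ i, 0 ≤ ζ i) (hD : ∀ i, ζ i ≤ D) (b : ℕ → ℝ)
    (hb : ∀ j q, q < n → (hasseDeriv q (f j)).eval D ≤ b q) :
    |(Matrix.of fun i j : Fin n => (f j).eval (ζ i)).det| ≤
      (n.factorial : ℝ) * D ^ (n * (n - 1) / 2) * ∏ q ∈ Finset.range n, b q := by
  induction n generalizing b with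
  | zero => simp
  | succ n ih =>
    have hex := fun j => exists_dd (hf j) (h0 0) (hD 0)
    choose g hg1 hg2 hg3 using hex
    have hD0 : 0 ≤ D := (h0 0).trans (hD 0)
    have h1 := v1_step (fun i j => (f j).eval (ζ i)) (fun i j => (g j).eval (ζ i)) ζ
      (fun i j => hg2 j _)
    have hb0 : ∀ j, (f j).eval (ζ 0) ≤ b 0 := by
      intro j
      have h2 := hb j 0 (Nat.succ_pos n)
      rw [hasseDeriv_zero'] at h2
      exact (w2_mono (hf j) (h0 0) (hD 0)).2.trans h2
    have hb00 : 0 ≤ b 0 := (w2_mono (hf 0) (h0 0) (hD 0)).1.trans (hb0 0)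
    set R : ℝ := (n.factorial : ℝ) * D ^ (n * (n - 1) / 2) *
      ∏ q ∈ Finset.range n, b (q + 1) with hR
    have hminor : ∀ j : Fin (n + 1), |(Matrix.of fun i j' : Fin n =>
        (g (j.succAbove j')).eval (ζ i.succ)).det| ≤ R := fun j =>
      ih (fun j' => g (j.succAbove j')) (fun j' m => hg1 _ m) (fun i => ζ i.succ)
        (fun i => h0 _) (fun i => hD _) (fun q => b (q + 1))
        (fun j' q hq => (hg3 _ q).trans (hb _ _ (Nat.succ_lt_succ hq)))
    have hR0 : 0 ≤ R := le_trans (abs_nonneg _) (hminor 0)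
    have hprod : |∏ i : Fin n, (ζ i.succ - ζ 0)| ≤ D ^ n := by
      rw [Finset.abs_prod]
      calc ∏ i : Fin n, |ζ i.succ - ζ 0| ≤ ∏ _i : Fin n, D := by
            refine Finset.prod_le_prod (fun i _ => abs_nonneg _) fun i _ => ?_
            rw [abs_le]
            constructor
            · linarith [h0 i.succ, hD 0]
            · linarith [h0 0, hD i.succ]
        _ = D ^ n := by simp
    have hsum : |∑ j : Fin (n + 1), (-1) ^ (j : ℕ) * (f j).eval (ζ 0) *
        (Matrix.of fun i j' : Fin n => (g (j.succAbove j')).eval (ζ i.succ)).det| ≤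
        ((n + 1 : ℕ) : ℝ) * (b 0 * R) := by
      refine (Finset.abs_sum_le_sum_abs _ _).trans ?_
      have h2 : ∀ j ∈ (Finset.univ : Finset (Fin (n + 1))), |(-1) ^ (j : ℕ) *
          (f j).eval (ζ 0) * (Matrix.of fun i j' : Fin n =>
            (g (j.succAbove j')).eval (ζ i.succ)).det| ≤ b 0 * R := by
        intro j _
        rw [abs_mul, abs_mul, abs_pow, abs_neg, abs_one, one_pow, one_mul]
        refine mul_le_mul ?_ (hminor j) (abs_nonneg _) hb00
        rw [abs_of_nonneg (w2_mono (hf j) (h0 0) (hD 0)).1]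
        exact hb0 j
      refine (Finset.sum_le_card_nsmul _ _ _ h2).trans ?_
      rw [Finset.card_univ, Fintype.card_fin, nsmul_eq_mul]
    rw [h1, abs_mul, Nat.triangle_succ, Finset.prod_range_succ', Nat.factorial_succ]
    calc |∏ i : Fin n, (ζ i.succ - ζ 0)| * |∑ j : Fin (n + 1), (-1) ^ (j : ℕ) *
          (f j).eval (ζ 0) * (Matrix.of fun i j' : Fin n =>
            (g (j.succAbove j')).eval (ζ i.succ)).det|
        ≤ D ^ n * (((n + 1 : ℕ) : ℝ) * (b 0 * R)) :=
          mul_le_mul hprod hsum (abs_nonneg _) (by positivity)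
      _ = _ := by
          rw [hR, pow_add]
          push_cast
          ring

end Pool.Agent.LibTL52
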