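import Pool.Agent.LibTL52.Defs

/-!
A matrix with independent columns has a nonzero maximal minor.
-/

set_option autoImplicit false

namespace Pool.Agent.LibTL52

theorem exists_submatrix_det_ne_zero {ι κ F : Type} [Fintype ι] [Fintype κ] [DecidableEq κ]
    [Field F] (M : Matrix ι κ F) (h : ∀ v : κ → F, M.mulVec v = 0 → v = 0) :
    ∃ g : κ → ι, (M.submatrix g id).det ≠ 0 := by
  classical
  -- the kernel is trivial, hence the rank is maximal
  have hinj : Function.Injective M.mulVecLin := by
    rw [← LinearMap.ker_eq_bot, LinearMap.ker_eq_bot']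
    intro v hv
    exact h v (by simpa using hv)
  have hrank : M.rank = Fintype.card κ := by
    rw [Matrix.rank, LinearMap.finrank_range_of_inj hinj, Module.finrank_fintype_fun_eq_card]
  have hspan : Submodule.span F (Set.range M.row) = ⊤ := by
    apply Submodule.eq_top_of_finrank_eq
    rw [← Matrix.rank_eq_finrank_span_row, hrank, Module.finrank_fintype_fun_eq_card]
  obtain ⟨κ', a, -, hsp, hli⟩ := exists_linearIndependent' F M.row
  rw [hspan] at hsp
  let B : Module.Basis κ' F (κ → F) := Module.Basis.mk hli hsp.ge
  have : Fintype κ' := FiniteDimensional.fintypeBasisIndex B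
  have hcard : Fintype.card κ = Fintype.card κ' := by
    rw [← Module.finrank_eq_card_basis B, Module.finrank_fintype_fun_eq_card]
  let e : κ ≃ κ' := Fintype.equivOfCardEq hcard
  refine ⟨a ∘ e, ?_⟩
  have hli2 : LinearIndependent F (M.submatrix (a ∘ e) id).row := by
    have h1 : (M.submatrix (a ∘ e) id).row = (M.row ∘ a) ∘ e := by
      funext i j
      rfl
    rw [h1]
    exact hli.comp _ e.injective
  have hu : IsUnit (M.submatrix (a ∘ e) id) := Matrix.linearIndependent_rows_iff_isUnit.mp hli2
  exact ((Matrix.isUnit_iff_isUnit_det _).mp hu).ne_zero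

end Pool.Agent.LibTL52
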