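import Pool.Agent.LibTL52.Defs

/-!
The leading coefficient of the determinant of a matrix of polynomials.
-/

set_option autoImplicit false
open Polynomial

namespace Pool.Agent.LibTL52

private theorem coeff_prod_aux {n F : Type} [DecidableEq n] [CommRing F] (s : Finset n)
    (f : n → F[X]) (d : n → ℕ) (h : ∀ j ∈ s, (f j).natDegree ≤ d j) :
    (∏ j ∈ s, f j).natDegree ≤ ∑ j ∈ s, d j ∧
      (∏ j ∈ s, f j).coeff (∑ j ∈ s, d j) = ∏ j ∈ s, (f j).coeff (d j) := by
  induction s using Finset.induction_on with
  | empty => simp
  | insert a s ha ih =>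
    have h1 := ih (fun j hj => h j (Finset.mem_insert_of_mem hj))
    have h2 := h a (Finset.mem_insert_self a s)
    rw [Finset.prod_insert ha, Finset.sum_insert ha, Finset.prod_insert ha]
    refine ⟨natDegree_mul_le_of_le h2 h1.1, ?_⟩
    rw [coeff_mul_add_eq_of_natDegree_le h2 h1.1, h1.2]

/-- if the entries of the `j`-th column have degree at most `d j`, then the coefficient of
`X ^ ∑ d j` of the determinant is the determinant of the coefficients -/
theorem coeff_det {n F : Type} [Fintype n] [DecidableEq n] [CommRing F] (M : Matrix n n F[X])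
    (d : n → ℕ) (h : ∀ i j, (M i j).natDegree ≤ d j) :
    M.det.coeff (∑ j, d j) = (Matrix.of fun i j => (M i j).coeff (d j)).det ∧
      M.det.natDegree ≤ ∑ j, d j := by
  constructor
  · rw [Matrix.det_apply, Matrix.det_apply, finsetSum_coeff]
    refine Finset.sum_congr rfl fun σ _ => ?_
    rw [Units.smul_def, Units.smul_def, coeff_smul]
    congr 1
    exact (coeff_prod_aux Finset.univ (fun j => M (σ j) j) d (fun j _ => h _ j)).2
  · rw [Matrix.det_apply]
    refine natDegree_sum_le_of_forall_le _ _ fun σ _ => ?_
    rw [Units.smul_def]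
    refine (natDegree_smul_le _ _).trans ?_
    exact (coeff_prod_aux Finset.univ (fun j => M (σ j) j) d (fun j _ => h _ j)).1

end Pool.Agent.LibTL52
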