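import Pool.Agent.LibTL52.Z0

/-!
A generalised Vandermonde matrix has a nonzero maximal minor.
-/

set_option autoImplicit false

namespace Pool.Agent.LibTL52

/-- `y` injective on `ι`, `S` a set of exponents smaller than `card ι`: some `|S|` rows of
`(y i ^ l)`, `l ∈ S`, have a nonzero determinant -/
theorem exists_rows {ι F : Type} [Fintype ι] [Field F] (y : ι → F) (hy : Function.Injective y)
    (S : Finset ℕ) (hS : ∀ l ∈ S, l < Fintype.card ι) :
    ∃ g : S → ι, (Matrix.of fun i j : S => y (g i) ^ (j : ℕ)).det ≠ 0 := by
  classical
  have key := exists_submatrix_det_ne_zero
    (Matrix.of fun (i : ι) (j : S) => y i ^ (j : ℕ)) (by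
      intro v hv
      -- the polynomial
      let p : Polynomial F := ∑ l : S, Polynomial.C (v l) * Polynomial.X ^ (l : ℕ)
      have heval : ∀ i : ι, p.eval (y i) = 0 := by
        intro i
        have h1 := congrFun hv i
        simp only [Matrix.mulVec, dotProduct, Matrix.of_apply, Pi.zero_apply] at h1
        simp only [p, Polynomial.eval_finsetSum, Polynomial.eval_mul, Polynomial.eval_C,
          Polynomial.eval_pow, Polynomial.eval_X]
        rw [← h1]
        exact Finset.sum_congr rfl fun l _ => mul_comm _ _
      have hcoeff : ∀ l : S, p.coeff (l : ℕ) = v l := by
        intro l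
        simp only [p, Polynomial.finsetSum_coeff, Polynomial.coeff_C_mul,
          Polynomial.coeff_X_pow]
        rw [Finset.sum_eq_single l]
        · simp
        · intro b _ hb
          have : (l : ℕ) ≠ (b : ℕ) := fun h => hb (Subtype.ext h.symm)
          simp [this]
        · intro h
          exact absurd (Finset.mem_univ l) h
      have hp0 : p = 0 := by
        by_cases hc : Fintype.card ι = 0
        · -- then S is empty
          have hSe : IsEmpty S := ⟨fun l => by
            have := hS l.1 l.2
            omega⟩
          simp [p]
        · have hdeg : p.natDegree < Fintype.card ι := by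
            have : p.natDegree ≤ Fintype.card ι - 1 := by
              apply Polynomial.natDegree_sum_le_of_forall_le
              intro l _
              refine (Polynomial.natDegree_C_mul_X_pow_le _ _).trans ?_
              have := hS l.1 l.2
              omega
            omega
          exact Polynomial.eq_zero_of_natDegree_lt_card_of_eval_eq_zero p hy heval hdeg
      funext l
      rw [← hcoeff l, hp0]
      simp)
  obtain ⟨g, hg⟩ := key
  exact ⟨g, hg⟩

end Pool.Agent.LibTL52
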