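import Pool.Agent.LibTL52.Z1
import Pool.Agent.LibTL52.Z2

/-!
The zero estimate.
-/

set_option autoImplicit false
open Polynomial

namespace Pool.Agent.LibTL52

private theorem z3_natDegree_comp {F : Type} [Field F] (p : F[X]) (a : F) :
    (p.comp (X + C a)).natDegree = p.natDegree := by
  rw [natDegree_comp, natDegree_X_add_C, mul_one]

private theorem z3_coeff_comp {F : Type} [Field F] (p : F[X]) (a : F) :
    (p.comp (X + C a)).coeff p.natDegree = p.leadingCoeff := by
  have h1 : (p.comp (X + C a)).leadingCoeff = p.leadingCoeff := by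
    rw [leadingCoeff_comp (by rw [natDegree_X_add_C]; exact one_ne_zero), leadingCoeff_X_add_C,
      one_pow, mul_one]
  rw [← h1]
  conv_rhs => rw [leadingCoeff, z3_natDegree_comp]

/-- a polynomial `∑ c k l X ^ k Y ^ l` (`k < K`, `l < L`) which vanishes at all the points
`(x₁ i + x₂ j, y₁ i y₂ j)`, where the `y₁ i` (at least `L` of them) are distinct and the `x₂ j`
(at least `K L` of them) are distinct, is zero -/
theorem zero_estimate {F ι κ : Type} [Field F] [Fintype ι] [Fintype κ] {K L : ℕ}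
    (hK : 0 < K) (hL : 0 < L) (x₁ y₁ : ι → F) (hy₁ : Function.Injective y₁)
    (hι : L ≤ Fintype.card ι) (x₂ y₂ : κ → F) (hx₂ : Function.Injective x₂)
    (hκ : K * L ≤ Fintype.card κ) (hy₂ : ∀ j, y₂ j ≠ 0) (c : Fin K × Fin L → F)
    (h : ∀ i j, ∑ p : Fin K × Fin L,
      c p * ((x₁ i + x₂ j) ^ (p.1 : ℕ) * (y₁ i * y₂ j) ^ (p.2 : ℕ)) = 0) : c = 0 := by
  classical
  by_contra hc
  -- the polynomials in `X`
  let Q : Fin L → F[X] := fun l => ∑ k : Fin K, C (c (k, l)) * X ^ (k : ℕ)
  let P : ℕ → F[X] := fun l => if hl : l < L then Q ⟨l, hl⟩ else 0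
  have hPQ : ∀ l : Fin L, P l = Q l := fun l => by
    simp only [P]
    rw [dif_pos l.2]
  have hQdeg : ∀ l, (Q l).natDegree ≤ K - 1 := by
    intro l
    refine natDegree_sum_le_of_forall_le _ _ fun k _ => ?_
    refine (natDegree_C_mul_X_pow_le _ _).trans ?_
    have := k.2
    omega
  have hPdeg : ∀ l, (P l).natDegree ≤ K - 1 := by
    intro l
    simp only [P]
    split_ifs with hl
    · exact hQdeg _
    · rw [natDegree_zero]; exact Nat.zero_le _
  have hQcoeff : ∀ (k : Fin K) (l : Fin L), (Q l).coeff (k : ℕ) = c (k, l) := by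
    intro k l
    simp only [Q]
    rw [finsetSum_coeff]
    rw [Finset.sum_eq_single k]
    · rw [coeff_C_mul_X_pow, if_pos rfl]
    · intro b _ hb
      rw [coeff_C_mul_X_pow, if_neg]
      intro hbk
      exact hb (Fin.ext hbk.symm)
    · intro hk
      exact absurd (Finset.mem_univ k) hk
  -- the set of nonzero columns
  let S : Finset ℕ := (Finset.range L).filter (fun l => P l ≠ 0)
  have hSL : ∀ l ∈ S, l < L := fun l hl => Finset.mem_range.1 (Finset.mem_filter.1 hl).1
  have hSP : ∀ l ∈ S, P l ≠ 0 := fun l hl => (Finset.mem_filter.1 hl).2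
  have hSne : S.Nonempty := by
    obtain ⟨⟨k, l⟩, hkl⟩ := Function.ne_iff.1 hc
    refine ⟨(l : ℕ), Finset.mem_filter.2 ⟨Finset.mem_range.2 l.2, fun h0 => hkl ?_⟩⟩
    rw [hPQ] at h0
    rw [← hQcoeff k l, h0, coeff_zero]
    rfl
  obtain ⟨g, hg⟩ := exists_rows y₁ hy₁ S (fun l hl => (hSL l hl).trans_le hι)
  let M : Matrix S S F[X] := Matrix.of fun i j : S =>
    (P (j : ℕ)).comp (X + C (x₁ (g i))) * C (y₁ (g i) ^ (j : ℕ))
  have hM : ∀ i j, M i j = (P (j : ℕ)).comp (X + C (x₁ (g i))) * C (y₁ (g i) ^ (j : ℕ)) :=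
    fun _ _ => rfl
  have hMdeg : ∀ i j, (M i j).natDegree ≤ (P (j : ℕ)).natDegree := by
    intro i j
    rw [hM]
    exact (natDegree_mul_C_le _ _).trans (z3_natDegree_comp _ _).le
  obtain ⟨h1, h2⟩ := coeff_det M (fun j : S => (P (j : ℕ)).natDegree) hMdeg
  have h3 : (Matrix.of fun i j : S => (M i j).coeff (P (j : ℕ)).natDegree) =
      Matrix.of fun i j : S => (P (j : ℕ)).leadingCoeff *
        (Matrix.of fun i j : S => y₁ (g i) ^ (j : ℕ)) i j := by
    ext i j
    rw [Matrix.of_apply, Matrix.of_apply, Matrix.of_apply, hM, coeff_mul_C, z3_coeff_comp]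
  have hdet : M.det ≠ 0 := by
    intro h0
    rw [h0, coeff_zero, h3, Matrix.det_mul_row] at h1
    rcases mul_eq_zero.1 h1.symm with h4 | h4
    · obtain ⟨j, _, hj⟩ := Finset.prod_eq_zero_iff.1 h4
      exact hSP j j.2 (leadingCoeff_eq_zero.1 hj)
    · exact hg h4
  apply hdet
  refine eq_zero_of_natDegree_lt_card_of_eval_eq_zero _ hx₂ ?_ ?_
  · intro j
    have h5 : (M.det).eval (x₂ j) = ((evalRingHom (x₂ j)).mapMatrix M).det := by
      rw [← RingHom.map_det]
      rfl
    rw [h5, ← Matrix.exists_mulVec_eq_zero_iff]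
    refine ⟨fun l : S => y₂ j ^ (l : ℕ), ?_, ?_⟩
    · intro h6
      obtain ⟨l, hl⟩ := hSne
      have := congrFun h6 ⟨l, hl⟩
      exact pow_ne_zero l (hy₂ j) this
    · funext i
      have h7 := h (g i) j
      have h8 : ∀ i' l', (evalRingHom (x₂ j)).mapMatrix M i' l' =
          (P (l' : ℕ)).eval (x₁ (g i') + x₂ j) * y₁ (g i') ^ (l' : ℕ) := by
        intro i' l'
        rw [RingHom.mapMatrix_apply, Matrix.map_apply, hM, coe_evalRingHom, eval_mul, eval_C,
          eval_comp, eval_add, eval_X, eval_C, add_comm (x₂ j)]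
      rw [Matrix.mulVec, Pi.zero_apply]
      unfold dotProduct
      calc ∑ l : S, (evalRingHom (x₂ j)).mapMatrix M i l * y₂ j ^ (l : ℕ)
          = ∑ l : S, (P (l : ℕ)).eval (x₁ (g i) + x₂ j) * (y₁ (g i) * y₂ j) ^ (l : ℕ) := by
            refine Finset.sum_congr rfl fun l _ => ?_
            rw [h8, mul_pow]
            ring
        _ = ∑ l ∈ S, (P l).eval (x₁ (g i) + x₂ j) * (y₁ (g i) * y₂ j) ^ l :=
            Finset.sum_coe_sort S
              (fun l => (P l).eval (x₁ (g i) + x₂ j) * (y₁ (g i) * y₂ j) ^ l)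
        _ = ∑ l ∈ Finset.range L, (P l).eval (x₁ (g i) + x₂ j) * (y₁ (g i) * y₂ j) ^ l := by
            refine Finset.sum_subset (Finset.filter_subset _ _) fun l hl hlS => ?_
            have h9 : P l = 0 := by
              by_contra h10
              exact hlS (Finset.mem_filter.2 ⟨hl, h10⟩)
            rw [h9, eval_zero, zero_mul]
        _ = ∑ l : Fin L, (P l).eval (x₁ (g i) + x₂ j) * (y₁ (g i) * y₂ j) ^ (l : ℕ) := by
            rw [Finset.sum_range]
        _ = ∑ l : Fin L, ∑ k : Fin K,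
              c (k, l) * ((x₁ (g i) + x₂ j) ^ (k : ℕ) * (y₁ (g i) * y₂ j) ^ (l : ℕ)) := by
            refine Finset.sum_congr rfl fun l _ => ?_
            rw [hPQ]
            simp only [Q]
            rw [eval_finsetSum, Finset.sum_mul]
            refine Finset.sum_congr rfl fun k _ => ?_
            rw [eval_mul, eval_C, eval_pow, eval_X]
            ring
        _ = ∑ p : Fin K × Fin L,
              c p * ((x₁ (g i) + x₂ j) ^ (p.1 : ℕ) * (y₁ (g i) * y₂ j) ^ (p.2 : ℕ)) := by
            rw [Fintype.sum_prod_type_right]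
        _ = 0 := h7
  · refine lt_of_le_of_lt h2 (lt_of_lt_of_le ?_ hκ)
    calc ∑ j : S, (P (j : ℕ)).natDegree ≤ ∑ _j : S, (K - 1) :=
          Finset.sum_le_sum fun j _ => hPdeg j
      _ = S.card * (K - 1) := by
          rw [Finset.sum_const, smul_eq_mul, Finset.card_univ, Fintype.card_coe]
      _ ≤ L * (K - 1) := by
          refine Nat.mul_le_mul_right _ ?_
          calc S.card ≤ (Finset.range L).card := Finset.card_filter_le _ _
            _ = L := Finset.card_range L
      _ < L * K := Nat.mul_lt_mul_of_pos_left (by omega) hL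
      _ = K * L := Nat.mul_comm _ _

end Pool.Agent.LibTL52
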