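import Pool.Agent.LibTL52.Defs

/-!
The points are distinct.
-/

set_option autoImplicit false

namespace Pool.Agent.LibTL52

private theorem Z4_aux {α β : ℕ} (hα : 2 ≤ α) (hβ : 2 ≤ β) (h : Indep α β)
    {r s d s' : ℕ} (he : α ^ r * β ^ s = α ^ (r + d) * β ^ s') : d = 0 ∧ s = s' := by
  have hαr : 0 < α ^ r := pow_pos (by omega) r
  have h1 : β ^ s = α ^ d * β ^ s' := by
    apply Nat.eq_of_mul_eq_mul_left hαr
    rw [he, pow_add]
    ring
  rcases Nat.eq_zero_or_pos d with hd | hd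
  · refine ⟨hd, ?_⟩
    rw [hd, pow_zero, one_mul] at h1
    exact Nat.pow_right_injective hβ h1
  · exfalso
    have h2 : 2 ≤ α ^ d := hα.trans (Nat.le_self_pow hd.ne' α)
    have hβs : 0 < β ^ s' := pow_pos (by omega) s'
    have h3 : β ^ s' < β ^ s := by
      rw [h1]
      nlinarith
    have h4 : s' < s := (Nat.pow_lt_pow_iff_right (by omega)).mp h3
    obtain ⟨e, rfl⟩ := Nat.exists_eq_add_of_lt h4
    apply h d (e + 1) hd (Nat.succ_pos e)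
    apply Nat.eq_of_mul_eq_mul_right hβs
    rw [← h1, add_assoc, pow_add]
    ring

theorem pow_mul_pow_inj {α β : ℕ} (hα : 2 ≤ α) (hβ : 2 ≤ β) (h : Indep α β)
    {r s r' s' : ℕ} (he : α ^ r * β ^ s = α ^ r' * β ^ s') : r = r' ∧ s = s' := by
  rcases le_total r r' with hrr | hrr
  · obtain ⟨d, rfl⟩ := Nat.exists_eq_add_of_le hrr
    obtain ⟨h1, h2⟩ := Z4_aux hα hβ h he
    exact ⟨by omega, h2⟩
  · obtain ⟨d, rfl⟩ := Nat.exists_eq_add_of_le hrr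
    obtain ⟨h1, h2⟩ := Z4_aux hα hβ h he.symm
    exact ⟨by omega, h2.symm⟩

private theorem Z4_lin {B₁ B₂ S : ℕ} (h : B₁.Coprime B₂) (hS : S ≤ B₁) (hB₁ : 0 < B₁)
    {r s r' s' : ℕ} (hr : r < S) (hr' : r' < S)
    (he : r * B₂ + s * B₁ = r' * B₂ + s' * B₁) : r = r' ∧ s = s' := by
  have h1 : ((r : ℤ) - r') * B₂ = (s' - s) * B₁ := by
    have h2 : ((r * B₂ + s * B₁ : ℕ) : ℤ) = ((r' * B₂ + s' * B₁ : ℕ) : ℤ) := by rw [he]
    push_cast at h2
    linarith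
  have hcop : IsCoprime (B₁ : ℤ) (B₂ : ℤ) := Nat.isCoprime_iff_coprime.mpr h
  have hdvd : (B₁ : ℤ) ∣ ((r : ℤ) - r') := by
    apply hcop.dvd_of_dvd_mul_right
    rw [h1]
    exact Dvd.intro_left _ rfl
  have hr0 : (r : ℤ) - r' = 0 := by
    apply Int.eq_zero_of_abs_lt_dvd hdvd
    rw [abs_lt]
    constructor <;> omega
  have hrr : r = r' := by omega
  refine ⟨hrr, ?_⟩
  rw [hrr] at he
  have h3 : s * B₁ = s' * B₁ := by omega
  exact Nat.eq_of_mul_eq_mul_right hB₁ h3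

theorem lin_inj {B₁ B₂ S : ℕ} (h : B₁.Coprime B₂) (hS : S ≤ max B₁ B₂) (hB₁ : 0 < B₁)
    (hB₂ : 0 < B₂) {r s r' s' : ℕ} (hr : r < S) (hs : s < S) (hr' : r' < S) (hs' : s' < S)
    (he : r * B₂ + s * B₁ = r' * B₂ + s' * B₁) : r = r' ∧ s = s' := by
  rcases le_max_iff.mp hS with h1 | h1
  · exact Z4_lin h h1 hB₁ hr hr' he
  · have he' : s * B₁ + r * B₂ = s' * B₁ + r' * B₂ := by
      rw [add_comm (s * B₁), add_comm (s' * B₁)]
      exact he
    obtain ⟨h2, h3⟩ := Z4_lin h.symm h1 hB₂ hs hs' he'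
    exact ⟨h3, h2⟩

end Pool.Agent.LibTL52
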