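import Pool.Agent.LibTL52.Z3
import Pool.Agent.LibTL52.Z4

/-!
A nonzero interpolation determinant.
-/

set_option autoImplicit false

namespace Pool.Agent.LibTL52

theorem exists_minor {α β B₁ B₂ K L S : ℕ} (hα : 2 ≤ α) (hβ : 2 ≤ β) (h : Indep α β)
    (hc : B₁.Coprime B₂) (hB₁ : 0 < B₁) (hB₂ : 0 < B₂) (hS : S ≤ max B₁ B₂)
    (hK : 0 < K) (hL : 0 < L) (hKL : K * L ≤ S ^ 2) :
    ∃ ρ : Fin K × Fin L → ℕ × ℕ, (∀ i, (ρ i).1 < 2 * S ∧ (ρ i).2 < 2 * S) ∧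
      (mat α β B₁ B₂ K L ρ).det ≠ 0 := by
  let x : Fin S × Fin S → ℚ := fun i => ((i.1 : ℕ) : ℚ) * B₂ + ((i.2 : ℕ) : ℚ) * B₁
  let y : Fin S × Fin S → ℚ := fun i => (α : ℚ) ^ (i.1 : ℕ) * (β : ℚ) ^ (i.2 : ℕ)
  have hcard : Fintype.card (Fin S × Fin S) = S ^ 2 := by
    simp [Fintype.card_prod, sq]
  have hx : Function.Injective x := by
    intro i j hij
    have h1 : (i.1 : ℕ) * B₂ + (i.2 : ℕ) * B₁ = (j.1 : ℕ) * B₂ + (j.2 : ℕ) * B₁ := by
      have h2 : ((i.1 : ℕ) : ℚ) * B₂ + ((i.2 : ℕ) : ℚ) * B₁ =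
        ((j.1 : ℕ) : ℚ) * B₂ + ((j.2 : ℕ) : ℚ) * B₁ := hij
      exact_mod_cast h2
    have h3 := lin_inj hc hS hB₁ hB₂ i.1.2 i.2.2 j.1.2 j.2.2 h1
    exact Prod.ext (Fin.ext h3.1) (Fin.ext h3.2)
  have hy : Function.Injective y := by
    intro i j hij
    have h1 : α ^ (i.1 : ℕ) * β ^ (i.2 : ℕ) = α ^ (j.1 : ℕ) * β ^ (j.2 : ℕ) := by
      have h2 : (α : ℚ) ^ (i.1 : ℕ) * (β : ℚ) ^ (i.2 : ℕ) =
        (α : ℚ) ^ (j.1 : ℕ) * (β : ℚ) ^ (j.2 : ℕ) := hij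
      exact_mod_cast h2
    have h3 := pow_mul_pow_inj hα hβ h h1
    exact Prod.ext (Fin.ext h3.1) (Fin.ext h3.2)
  have hy0 : ∀ j, y j ≠ 0 := by
    intro j
    have h1 : (α : ℚ) ≠ 0 := by
      have : α ≠ 0 := by omega
      exact_mod_cast this
    have h2 : (β : ℚ) ≠ 0 := by
      have : β ≠ 0 := by omega
      exact_mod_cast this
    exact mul_ne_zero (pow_ne_zero _ h1) (pow_ne_zero _ h2)
  let M : Matrix ((Fin S × Fin S) × (Fin S × Fin S)) (Fin K × Fin L) ℚ :=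
    Matrix.of fun q p => (x q.1 + x q.2) ^ (p.1 : ℕ) * (y q.1 * y q.2) ^ (p.2 : ℕ)
  have hM : ∀ v : Fin K × Fin L → ℚ, M.mulVec v = 0 → v = 0 := by
    intro v hv
    refine zero_estimate hK hL x y hy ?_ x y hx ?_ hy0 v ?_
    · rw [hcard]
      exact (Nat.le_mul_of_pos_left L hK).trans hKL
    · rw [hcard]
      exact hKL
    · intro i j
      have h1 := congrFun hv (i, j)
      simp only [Matrix.mulVec, dotProduct, M, Matrix.of_apply, Pi.zero_apply] at h1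
      rw [← h1]
      exact Finset.sum_congr rfl fun p _ => mul_comm _ _
  obtain ⟨g, hg⟩ := exists_submatrix_det_ne_zero M hM
  refine ⟨fun i => (((g i).1.1 : ℕ) + ((g i).2.1 : ℕ), ((g i).1.2 : ℕ) + ((g i).2.2 : ℕ)),
    fun i => ?_, fun h0 => hg ?_⟩
  · have h1 := (g i).1.1.2
    have h2 := (g i).1.2.2
    have h3 := (g i).2.1.2
    have h4 := (g i).2.2.2
    constructor
    · show ((g i).1.1 : ℕ) + ((g i).2.1 : ℕ) < 2 * S
      omega
    · show ((g i).1.2 : ℕ) + ((g i).2.2 : ℕ) < 2 * S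
      omega
  · have h1 := congrArg (Int.castRingHom ℚ) h0
    rw [RingHom.map_det, map_zero] at h1
    rw [← h1]
    congr 1
    ext i j
    simp only [Matrix.submatrix_apply, id, M, Matrix.of_apply, RingHom.mapMatrix_apply,
      Matrix.map_apply, mat, x, y, map_mul, map_pow, map_add, map_natCast, Nat.cast_add,
      pow_add]
    ring
end Pool.Agent.LibTL52
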